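import Pool.Agent.Y943.SL.Mk
import Pool.Agent.TH966.KO.Rates

/-!
# Self-avoiding walks on `ℤ³` satisfy the assumptions
-/

set_option autoImplicit false

namespace Pool.Agent.Y943.SL

open Filter Topology

theorem three : Wk (fun n => (TH966.KO.c n : ℝ)) TH966.KO.μ := by
  have hμ : 0 < TH966.KO.μ := by linarith [TH966.KO.mu_one]
  obtain ⟨D, hD0, hD⟩ := TH966.KO.kesten
  refine mk hμ TH966.KO.mu_pow (fun m n => ?_) TH966.KO.tend (TH966.KO.μ ^ 2 / 2) (by positivity) ?_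
    ⟨D, hD0, ?_⟩
  · exact_mod_cast TH966.KO.c_add m n
  · obtain ⟨K, hK⟩ := TH966.KO.rates (1 / 6) (by norm_num)
    have h1 : Tendsto (fun n : ℕ => K * (n : ℝ) ^ (-(1 / 3 : ℝ) + 1 / 6)) atTop (𝓝 (K * 0)) := by
      have h2 : Tendsto (fun n : ℕ => (n : ℝ) ^ (-(1 / 6 : ℝ))) atTop (𝓝 0) :=
        (tendsto_rpow_neg_atTop (by norm_num)).comp tendsto_natCast_atTop_atTop
      have h3 : (-(1 / 3 : ℝ) + 1 / 6) = -(1 / 6) := by norm_num
      rw [h3]
      exact h2.const_mul K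
    rw [mul_zero] at h1
    filter_upwards [hK, h1.eventually_lt_const (show 0 < TH966.KO.μ ^ 2 / 2 by positivity)]
      with n h2 h3
    have hc := TH966.KO.c_pos n
    have h4 : TH966.KO.μ ^ 2 / 2 ≤ (TH966.KO.c (n + 2) : ℝ) / TH966.KO.c n := by linarith [h2.1]
    rwa [le_div_iff₀ hc] at h4
  · filter_upwards [hD] with n hn
    exact hn

end Pool.Agent.Y943.SL
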