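import Pool.Agent.TH966.KS.Samp

/-!
# Sequences with Kesten's inequality: power laws along sets with gaps of order `√n`
-/

set_option autoImplicit false

namespace Pool.Agent.Y943.SL

open Filter Topology TH966.KS

/-- what is needed about the numbers `c n` of walks and the connective constant `μ` -/
structure Wk (c : ℕ → ℝ) (μ : ℝ) : Prop where
  hμ : 0 < μ
  low : ∀ n, μ ^ n ≤ c n
  kes : ∃ D : ℝ, 0 ≤ D ∧ ∀ s : ℕ, s ≤ 1 → ∃ k0 : ℕ,
    Kes (fun k => c (2 * k + s) / μ ^ (2 * k + s)) D (1 / 2) k0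
  par : ∃ B : ℝ, ∀ n : ℕ, 1 ≤ n →
    |Real.log (c (n + 1) / μ ^ (n + 1)) - Real.log (c n / μ ^ n)| ≤ B
  sub : Tendsto (fun n : ℕ => Real.log (c n / μ ^ n) / n) atTop (𝓝 0)

variable {c : ℕ → ℝ} {μ : ℝ}

theorem Wk.one_le (W : Wk c μ) (n : ℕ) : 1 ≤ c n / μ ^ n := by
  rw [one_le_div (pow_pos W.hμ n)]
  exact W.low n

theorem Wk.pos (W : Wk c μ) (n : ℕ) : 0 < c n / μ ^ n := lt_of_lt_of_le one_pos (W.one_le n)

theorem Wk.cpos (W : Wk c μ) (n : ℕ) : 0 < c n := lt_of_lt_of_le (pow_pos W.hμ n) (W.low n)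

theorem log_over : Tendsto (fun n : ℕ => Real.log (n : ℝ) / n) atTop (𝓝 0) := by
  have h := (Real.isLittleO_log_id_atTop.tendsto_div_nhds_zero).comp tendsto_natCast_atTop_atTop
  exact h

/-- lengths `2 k + s` -/
theorem tend_len (s : ℕ) : Tendsto (fun k : ℕ => 2 * k + s) atTop atTop :=
  tendsto_atTop_mono (fun k => by simp only [id]; omega) tendsto_id

theorem log_len_diff (β b : ℝ) (s m n : ℕ) (hm : 1 ≤ m) (hmn : m ≤ n) :
    |(β * Real.log ((2 * n + s : ℕ) : ℝ) + b) - (β * Real.log ((2 * m + s : ℕ) : ℝ) + b)| ≤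
      |β| * ((n : ℝ) - m) / m := by
  have hm0 : (0 : ℝ) < m := by exact_mod_cast (show 0 < m by omega)
  have hmn' : (m : ℝ) ≤ n := by exact_mod_cast hmn
  have hM : (0 : ℝ) < ((2 * m + s : ℕ) : ℝ) := by exact_mod_cast (show 0 < 2 * m + s by omega)
  have hN : (0 : ℝ) < ((2 * n + s : ℕ) : ℝ) := by exact_mod_cast (show 0 < 2 * n + s by omega)
  have h1 : (β * Real.log ((2 * n + s : ℕ) : ℝ) + b) - (β * Real.log ((2 * m + s : ℕ) : ℝ) + b) =
      β * Real.log (((2 * n + s : ℕ) : ℝ) / ((2 * m + s : ℕ) : ℝ)) := by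
    rw [Real.log_div hN.ne' hM.ne']
    ring
  rw [h1, abs_mul, mul_div_assoc]
  refine mul_le_mul_of_nonneg_left ?_ (abs_nonneg _)
  have hle : ((2 * m + s : ℕ) : ℝ) ≤ ((2 * n + s : ℕ) : ℝ) := by
    exact_mod_cast (show 2 * m + s ≤ 2 * n + s by omega)
  have h2 : 0 ≤ Real.log (((2 * n + s : ℕ) : ℝ) / ((2 * m + s : ℕ) : ℝ)) :=
    Real.log_nonneg ((one_le_div hM).2 hle)
  rw [abs_of_nonneg h2]
  refine (Real.log_le_sub_one_of_pos (div_pos hN hM)).trans ?_
  rw [div_sub_one hM.ne', div_le_div_iff₀ hM hm0]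
  push_cast
  have hs : (0 : ℝ) ≤ s := Nat.cast_nonneg s
  nlinarith

theorem psi_zero (β b : ℝ) (s : ℕ) :
    Tendsto (fun n : ℕ => (β * Real.log ((2 * n + s : ℕ) : ℝ) + b) / n) atTop (𝓝 0) := by
  have h1 : Tendsto (fun n : ℕ => Real.log ((2 * n + s : ℕ) : ℝ) / ((2 * n + s : ℕ) : ℝ)) atTop
      (𝓝 0) := log_over.comp (tend_len s)
  have h2 : Tendsto (fun n : ℕ => ((2 * n + s : ℕ) : ℝ) / n) atTop (𝓝 2) := by
    have h3 : Tendsto (fun n : ℕ => (2 : ℝ) + (s : ℝ) / n) atTop (𝓝 (2 + 0)) :=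
      (tendsto_const_div_atTop_nhds_zero_nat (s : ℝ)).const_add 2
    rw [add_zero] at h3
    refine h3.congr' ?_
    filter_upwards [eventually_gt_atTop 0] with n hn
    have : (n : ℝ) ≠ 0 := by exact_mod_cast (show n ≠ 0 by omega)
    push_cast
    field_simp
  have h4 := ((h1.mul h2).const_mul β).add (tendsto_const_div_atTop_nhds_zero_nat b)
  rw [zero_mul, mul_zero, add_zero] at h4
  refine h4.congr' ?_
  filter_upwards [eventually_gt_atTop 0] with n hn
  have h5 : (n : ℝ) ≠ 0 := by exact_mod_cast (show n ≠ 0 by omega)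
  have h6 : ((2 * n + s : ℕ) : ℝ) ≠ 0 := by exact_mod_cast (show 2 * n + s ≠ 0 by omega)
  rw [div_mul_div_cancel₀ h6, mul_div_assoc', add_div]

theorem one_div_tend : Tendsto (fun n : ℕ => (1 : ℝ) / n) atTop (𝓝 0) :=
  tendsto_const_div_atTop_nhds_zero_nat 1

/-- **The strong form**: a power law along a set of lengths with gaps `o(√n)` (in both parity
classes) holds along all lengths. -/
theorem Wk.form (W : Wk c μ) (S : Set ℕ)
    (hS : ∀ δ : ℝ, 0 < δ → ∀ᶠ n : ℕ in atTop, ∃ m ∈ S, m % 2 = n % 2 ∧ n ≤ m ∧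
      (m : ℝ) ≤ n + δ * √n)
    (A β : ℝ) (hA : 0 < A)
    (h : Tendsto (fun n : ℕ => c n / (μ ^ n * (n : ℝ) ^ β)) (atTop ⊓ 𝓟 S) (𝓝 A)) :
    Tendsto (fun n : ℕ => c n / (μ ^ n * (n : ℝ) ^ β)) atTop (𝓝 A) := by
  obtain ⟨D, hD, hkes⟩ := W.kes
  have hform : ∀ n : ℕ, 1 ≤ n → Real.log (c n / (μ ^ n * (n : ℝ) ^ β) / A) =
      Real.log (c n / μ ^ n) - (β * Real.log n + Real.log A) := by
    intro n hn
    have hn0 : (0 : ℝ) < n := by exact_mod_cast hn
    have h1 : (0 : ℝ) < (n : ℝ) ^ β := Real.rpow_pos_of_pos hn0 _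
    rw [← div_div, Real.log_div (div_pos (W.pos n) h1).ne' hA.ne',
      Real.log_div (W.pos n).ne' h1.ne', Real.log_rpow hn0]
    ring
  have hquot : ∀ n : ℕ, 1 ≤ n → 0 < c n / (μ ^ n * (n : ℝ) ^ β) := by
    intro n hn
    have hn0 : (0 : ℝ) < n := by exact_mod_cast hn
    rw [← div_div]
    exact div_pos (W.pos n) (Real.rpow_pos_of_pos hn0 _)
  -- along `S`
  have hlogS : ∀ τ : ℝ, 0 < τ → ∀ᶠ n : ℕ in atTop, n ∈ S →
      |Real.log (c n / μ ^ n) - (β * Real.log n + Real.log A)| ≤ τ := by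
    intro τ hτ
    have h2 : Tendsto (fun n : ℕ => Real.log (c n / (μ ^ n * (n : ℝ) ^ β) / A)) (atTop ⊓ 𝓟 S)
        (𝓝 (Real.log (A / A))) := by
      refine Tendsto.log (h.div_const A) ?_
      rw [div_self hA.ne']; norm_num
    rw [div_self hA.ne', Real.log_one] at h2
    have h3 := h2.abs
    rw [abs_zero] at h3
    have h4 := h3.eventually_lt_const hτ
    rw [eventually_inf_principal] at h4
    filter_upwards [h4, eventually_ge_atTop 1] with n h5 h6 h7
    rw [← hform n h6]
    exact (h5 h7).le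
  -- all lengths, in each parity class
  have hall : ∀ s : ℕ, s ≤ 1 → ∀ ε : ℝ, 0 < ε → ∀ᶠ k : ℕ in atTop,
      |Real.log (c (2 * k + s) / μ ^ (2 * k + s)) -
        (β * Real.log ((2 * k + s : ℕ) : ℝ) + Real.log A)| ≤ ε := by
    intro s hs ε hε
    obtain ⟨k0, hK⟩ := hkes s hs
    have hδ : 0 < √(ε / (2 * (384 * D + 1))) := Real.sqrt_pos.2 (by positivity)
    set δ := √(ε / (2 * (384 * D + 1))) with hδd
    have hst := step (E := fun _ => 1) (B := |β|) (τ := ε / 18) (δ := δ)
      (ψ := fun k => β * Real.log ((2 * k + s : ℕ) : ℝ) + Real.log A)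
      (S := {k | 2 * k + s ∈ S}) hK (fun k => (W.pos _).le) hD (by norm_num) (by norm_num)
      (fun _ _ => le_rfl) monotone_const (fun _ _ => by norm_num) one_div_tend
      (by positivity) hδ (abs_nonneg β)
      (fun m n hm hmn => log_len_diff β _ s m n hm hmn) (psi_zero β _ s)
      (by
        filter_upwards [(tend_len s).eventually (hS δ hδ), eventually_ge_atTop 1] with k hk hk1
        obtain ⟨m, hmS, hm2, hm3, hm4⟩ := hk
        obtain ⟨j, rfl⟩ : ∃ j, m = 2 * j + s := ⟨m / 2, by omega⟩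
        refine ⟨j, hmS, by omega, ?_⟩
        rw [mul_one]
        have h5 : √((2 * k + s : ℕ) : ℝ) ≤ 2 * √(k : ℝ) := by
          rw [show (2 : ℝ) * √(k : ℝ) = √(4 * k) by
            rw [Real.sqrt_mul (by norm_num), show (4 : ℝ) = 2 ^ 2 by norm_num,
              Real.sqrt_sq (by norm_num)]]
          refine Real.sqrt_le_sqrt ?_
          exact_mod_cast (show 2 * k + s ≤ 4 * k by omega)
        have h6 := mul_le_mul_of_nonneg_left h5 hδ.le
        push_cast at hm4 h6 ⊢
        linarith)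
      (by
        filter_upwards [(tend_len s).eventually (hlogS (ε / 18) (by positivity))] with k hk hkS
        rw [mul_one]
        exact ⟨W.pos _, hk hkS⟩)
    filter_upwards [hst] with k hk
    refine hk.2.trans ?_
    rw [mul_one, hδd, Real.sq_sqrt (by positivity)]
    have h7 : 384 * D * (ε / (2 * (384 * D + 1))) ≤ ε / 2 := by
      rw [mul_div_assoc', div_le_div_iff₀ (by positivity) (by norm_num)]
      nlinarith
    linarith
  have hall2 : ∀ ε : ℝ, 0 < ε → ∀ᶠ n : ℕ in atTop,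
      |Real.log (c n / μ ^ n) - (β * Real.log n + Real.log A)| ≤ ε := by
    intro ε hε
    obtain ⟨N0, h0⟩ := eventually_atTop.1 (hall 0 (by norm_num) ε hε)
    obtain ⟨N1, h1⟩ := eventually_atTop.1 (hall 1 le_rfl ε hε)
    filter_upwards [eventually_ge_atTop (2 * N0 + 2 * N1 + 2)] with n hn
    rcases Nat.even_or_odd' n with ⟨k, hk | hk⟩
    · subst hk
      exact h0 k (by omega)
    · subst hk
      exact h1 k (by omega)
  have h8 : Tendsto (fun n : ℕ => Real.log (c n / μ ^ n) - (β * Real.log n + Real.log A)) atTop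
      (𝓝 0) := by
    rw [Metric.tendsto_atTop']
    intro ε hε
    obtain ⟨N, hN⟩ := eventually_atTop.1 (hall2 (ε / 2) (by positivity))
    refine ⟨N, fun n hn => ?_⟩
    rw [dist_zero_right, Real.norm_eq_abs]
    have := hN n hn.le
    linarith
  have h9 : Tendsto (fun n : ℕ => Real.exp (Real.log (c n / μ ^ n) -
      (β * Real.log n + Real.log A)) * A) atTop (𝓝 (Real.exp 0 * A)) :=
    ((Real.continuous_exp.tendsto 0).comp h8).mul_const A
  rw [Real.exp_zero, one_mul] at h9
  refine h9.congr' ?_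
  filter_upwards [eventually_ge_atTop 1] with n hn
  rw [← hform n hn, Real.exp_log (div_pos (hquot n hn) hA), div_mul_cancel₀ _ hA.ne']

/-- the logarithmic scale: from a set with gaps `o(√(n log n))` to the even lengths -/
theorem Wk.even (W : Wk c μ) (S : Set ℕ)
    (hS : ∀ δ : ℝ, 0 < δ → ∀ᶠ n : ℕ in atTop, ∃ m ∈ S, n ≤ m ∧
      (m : ℝ) ≤ n + δ * √(n * Real.log n))
    (β : ℝ)
    (h : Tendsto (fun n : ℕ => Real.log (c n / μ ^ n) / Real.log n) (atTop ⊓ 𝓟 S) (𝓝 β))
    (ε : ℝ) (hε : 0 < ε) : ∀ᶠ k : ℕ in atTop,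
      |Real.log (c (2 * k) / μ ^ (2 * k)) - β * Real.log ((2 * k : ℕ) : ℝ)| ≤
        ε * (1 + Real.log k) := by
  obtain ⟨D, hD, hkes⟩ := W.kes
  obtain ⟨k0, hK⟩ := hkes 0 (by norm_num)
  obtain ⟨B, hB⟩ := W.par
  have hlog0 : ∀ n : ℕ, 0 ≤ Real.log (n : ℝ) := fun n => Real.log_natCast_nonneg n
  have hlog2 : Real.log 2 ≤ 1 := by
    have := Real.log_two_lt_d9
    linarith
  have hE1 : ∀ n : ℕ, 1 ≤ n → (1 : ℝ) ≤ 1 + Real.log n := fun n _ => by linarith [hlog0 n]
  have hEm : Monotone (fun n : ℕ => 1 + Real.log (n : ℝ)) := by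
    intro m n hmn
    rcases Nat.eq_zero_or_pos m with h0 | h0
    · subst h0
      simp only [Nat.cast_zero, Real.log_zero, add_zero]
      linarith [hlog0 n]
    · have h1 : (0 : ℝ) < m := by exact_mod_cast h0
      have h2 : (m : ℝ) ≤ n := by exact_mod_cast hmn
      have := Real.log_le_log h1 h2
      simp only
      linarith
  have hE2 : ∀ n : ℕ, 1 ≤ n → 1 + Real.log ((2 * n : ℕ) : ℝ) ≤ 2 * (1 + Real.log n) := by
    intro n hn
    have h1 : (0 : ℝ) < n := by exact_mod_cast (show 0 < n by omega)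
    push_cast
    rw [Real.log_mul (by norm_num) h1.ne']
    linarith [hlog0 n]
  have hEn : Tendsto (fun n : ℕ => (1 + Real.log (n : ℝ)) / n) atTop (𝓝 0) := by
    have h1 := one_div_tend.add log_over
    rw [add_zero] at h1
    refine h1.congr fun n => ?_
    rw [add_div]
  have hδ : 0 < √(ε / (2 * (384 * D + 1))) := Real.sqrt_pos.2 (by positivity)
  set δ := √(ε / (2 * (384 * D + 1))) with hδd
  set τ := ε / 18 with hτ
  have hτ0 : 0 < τ := by positivity
  -- along `S`
  have hlogS : ∀ᶠ n : ℕ in atTop, n ∈ S →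
      |Real.log (c n / μ ^ n) - β * Real.log n| ≤ τ / 2 * Real.log n := by
    have h3 := (Metric.tendsto_nhds.1 h) (τ / 2) (by positivity)
    rw [eventually_inf_principal] at h3
    filter_upwards [h3, eventually_gt_atTop 1] with n h4 h5 h6
    have h51 : (1 : ℝ) < n := by exact_mod_cast h5
    have h52 : 0 < Real.log (n : ℝ) := Real.log_pos h51
    have h7 := h4 h6
    rw [Real.dist_eq] at h7
    have h8 : Real.log (c n / μ ^ n) - β * Real.log n =
        (Real.log (c n / μ ^ n) / Real.log n - β) * Real.log n := by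
      field_simp
    rw [h8, abs_mul, abs_of_pos h52]
    exact mul_le_mul_of_nonneg_right h7.le h52.le
  have hbig : ∀ᶠ k : ℕ in atTop, |B| + |β| + τ ≤ τ / 2 * Real.log (k : ℝ) := by
    have h1 : Tendsto (fun k : ℕ => τ / 2 * Real.log (k : ℝ)) atTop atTop :=
      (Real.tendsto_log_atTop.comp tendsto_natCast_atTop_atTop).const_mul_atTop (by positivity)
    exact h1.eventually_ge_atTop _
  have hst := step (E := fun n => 1 + Real.log (n : ℝ)) (B := |β|) (τ := τ) (δ := δ)
    (ψ := fun k => β * Real.log ((2 * k + 0 : ℕ) : ℝ) + 0)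
    (S := {k | 2 * k ∈ S ∨ 2 * k + 1 ∈ S}) hK (fun k => (W.pos _).le) hD (by norm_num)
    (by norm_num) hE1 hEm hE2 hEn hτ0 hδ (abs_nonneg β)
    (fun m n hm hmn => log_len_diff β 0 0 m n hm hmn) (psi_zero β 0 0)
    (by
      filter_upwards [(tend_len 0).eventually (hS (δ / 2) (by positivity)),
        eventually_ge_atTop 3] with k hk hk1
      obtain ⟨m, hmS, hm3, hm4⟩ := hk
      refine ⟨m / 2, ?_, by omega, ?_⟩
      · rcases Nat.even_or_odd' m with ⟨j, hj | hj⟩
        · left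
          rw [hj, show 2 * j / 2 = j by omega, ← hj]
          exact hmS
        · right
          rw [hj, show (2 * j + 1) / 2 = j by omega, ← hj]
          exact hmS
      · have h1 : ((m / 2 : ℕ) : ℝ) ≤ m / 2 := Nat.cast_div_le
        have hk0 : (3 : ℝ) ≤ k := by exact_mod_cast hk1
        have h5 : √(((2 * k + 0 : ℕ) : ℝ) * Real.log ((2 * k + 0 : ℕ) : ℝ)) ≤
            2 * √(k * (1 + Real.log k)) := by
          rw [show (2 : ℝ) * √(k * (1 + Real.log k)) = √(4 * (k * (1 + Real.log k))) by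
            rw [Real.sqrt_mul (by norm_num : (0 : ℝ) ≤ 4), show (4 : ℝ) = 2 ^ 2 by norm_num,
              Real.sqrt_sq (by norm_num)]]
          refine Real.sqrt_le_sqrt ?_
          push_cast
          rw [add_zero, Real.log_mul (by norm_num) (by positivity)]
          have h6 : 0 ≤ Real.log (k : ℝ) := hlog0 k
          nlinarith
        have h6 := mul_le_mul_of_nonneg_left h5 (show 0 ≤ δ / 2 by positivity)
        have h7 : 0 ≤ δ * √(k * (1 + Real.log k)) := by positivity
        push_cast at hm4 h6 h1 ⊢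
        linarith)
    (by
      obtain ⟨N, hN⟩ := eventually_atTop.1 hlogS
      filter_upwards [eventually_ge_atTop (N + 1), hbig] with k hk hkb hkS
      refine ⟨W.pos _, ?_⟩
      have hk1 : 1 ≤ k := by omega
      have hk0 : (0 : ℝ) < k := by exact_mod_cast hk1
      have e2 : Real.log ((2 * k : ℕ) : ℝ) ≤ 1 + Real.log k := by
        push_cast
        rw [Real.log_mul (by norm_num) hk0.ne']
        linarith
      rw [add_zero, add_zero]
      rcases hkS with hkS | hkS
      · have h1 := hN (2 * k) (by omega) hkS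
        refine h1.trans ?_
        have := mul_le_mul_of_nonneg_left e2 (show 0 ≤ τ / 2 by positivity)
        have h3 : 0 ≤ τ / 2 * (1 + Real.log k) := by
          have := hlog0 k
          positivity
        linarith
      · have h1 := hN (2 * k + 1) (by omega) hkS
        have h2 := hB (2 * k) (by omega)
        have h3 := log_len_diff β 0 0 k (k + 1) (by omega) (by omega)
        have e3 : Real.log ((2 * k + 1 : ℕ) : ℝ) ≤ Real.log ((2 * k : ℕ) : ℝ) + 1 := by
          have h4 : ((2 * k + 1 : ℕ) : ℝ) ≤ 2 * ((2 * k : ℕ) : ℝ) := by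
            push_cast
            have : (1 : ℝ) ≤ k := by exact_mod_cast hk1
            linarith
          have h5 : (0 : ℝ) < ((2 * k + 1 : ℕ) : ℝ) := by positivity
          have h6 : (0 : ℝ) < ((2 * k : ℕ) : ℝ) := by push_cast; positivity
          have h7 := Real.log_le_log h5 h4
          rw [Real.log_mul (by norm_num) h6.ne'] at h7
          linarith
        have e4 : Real.log ((2 * k : ℕ) : ℝ) ≤ Real.log ((2 * k + 1 : ℕ) : ℝ) := by
          apply Real.log_le_log
          · push_cast; positivity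
          · push_cast; linarith
        have e5 : |β * Real.log ((2 * k + 1 : ℕ) : ℝ) - β * Real.log ((2 * k : ℕ) : ℝ)| ≤ |β| := by
          rw [← mul_sub, abs_mul]
          refine mul_le_of_le_one_right (abs_nonneg β) ?_
          rw [abs_of_nonneg (by linarith)]
          linarith
        have e6 : Real.log (c (2 * k) / μ ^ (2 * k)) - β * Real.log ((2 * k : ℕ) : ℝ) =
            -(Real.log (c (2 * k + 1) / μ ^ (2 * k + 1)) - Real.log (c (2 * k) / μ ^ (2 * k))) +
            (Real.log (c (2 * k + 1) / μ ^ (2 * k + 1)) - β * Real.log ((2 * k + 1 : ℕ) : ℝ)) +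
            (β * Real.log ((2 * k + 1 : ℕ) : ℝ) - β * Real.log ((2 * k : ℕ) : ℝ)) := by ring
        rw [e6]
        refine (abs_add_three _ _ _).trans ?_
        rw [abs_neg]
        have h8 : B ≤ |B| := le_abs_self B
        have h9 : τ / 2 * Real.log ((2 * k + 1 : ℕ) : ℝ) ≤ τ / 2 * (1 + Real.log k + 1) :=
          mul_le_mul_of_nonneg_left (by linarith) (by positivity)
        linarith)
  filter_upwards [hst] with k hk
  have h1 := hk.2
  simp only [add_zero] at h1
  refine h1.trans (mul_le_mul_of_nonneg_right ?_ (by linarith [hlog0 k]))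
  rw [hδd, Real.sq_sqrt (by positivity)]
  have h7 : 384 * D * (ε / (2 * (384 * D + 1))) ≤ ε / 2 := by
    rw [mul_div_assoc', div_le_div_iff₀ (by positivity) (by norm_num)]
    nlinarith
  linarith

/-- **The logarithmic form**: the exponent along a set of lengths with gaps `o(√(n log n))` is the
exponent along all lengths. -/
theorem Wk.expo (W : Wk c μ) (S : Set ℕ)
    (hS : ∀ δ : ℝ, 0 < δ → ∀ᶠ n : ℕ in atTop, ∃ m ∈ S, n ≤ m ∧
      (m : ℝ) ≤ n + δ * √(n * Real.log n))
    (β : ℝ)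
    (h : Tendsto (fun n : ℕ => Real.log (c n / μ ^ n) / Real.log n) (atTop ⊓ 𝓟 S) (𝓝 β)) :
    Tendsto (fun n : ℕ => Real.log (c n / μ ^ n) / Real.log n) atTop (𝓝 β) := by
  obtain ⟨B, hB⟩ := W.par
  have hlog0 : ∀ n : ℕ, 0 ≤ Real.log (n : ℝ) := fun n => Real.log_natCast_nonneg n
  have key : ∀ ε : ℝ, 0 < ε → ∀ᶠ n : ℕ in atTop,
      |Real.log (c n / μ ^ n) - β * Real.log n| ≤ ε * Real.log n := by
    intro ε hε
    obtain ⟨N, hN⟩ := eventually_atTop.1 (W.even S hS β h (ε / 2) (by positivity))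
    have hbig : ∀ᶠ n : ℕ in atTop, ε + |B| + |β| ≤ ε / 2 * Real.log (n : ℝ) := by
      have h1 : Tendsto (fun k : ℕ => ε / 2 * Real.log (k : ℝ)) atTop atTop :=
        (Real.tendsto_log_atTop.comp tendsto_natCast_atTop_atTop).const_mul_atTop (by positivity)
      exact h1.eventually_ge_atTop _
    filter_upwards [eventually_ge_atTop (2 * N + 4), hbig] with n hn hnb
    rcases Nat.even_or_odd' n with ⟨k, hk | hk⟩
    · subst hk
      refine (hN k (by omega)).trans ?_
      have hk1 : 1 ≤ k := by omega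
      have hk0 : (0 : ℝ) < k := by exact_mod_cast hk1
      have e1 : Real.log (k : ℝ) ≤ Real.log ((2 * k : ℕ) : ℝ) := by
        apply Real.log_le_log hk0
        push_cast; linarith
      have e2 := mul_le_mul_of_nonneg_left e1 (show 0 ≤ ε / 2 by positivity)
      have e3 := abs_nonneg B
      have e4 := abs_nonneg β
      linarith
    · subst hk
      have hk1 : 1 ≤ k := by omega
      have hk0 : (0 : ℝ) < k := by exact_mod_cast hk1
      have h1 := hN k (by omega)
      have h2 := hB (2 * k) (by omega)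
      have e3 : Real.log ((2 * k + 1 : ℕ) : ℝ) ≤ Real.log ((2 * k : ℕ) : ℝ) + 1 := by
        have h4 : ((2 * k + 1 : ℕ) : ℝ) ≤ 2 * ((2 * k : ℕ) : ℝ) := by
          push_cast
          have : (1 : ℝ) ≤ k := by exact_mod_cast hk1
          linarith
        have h5 : (0 : ℝ) < ((2 * k + 1 : ℕ) : ℝ) := by positivity
        have h6 : (0 : ℝ) < ((2 * k : ℕ) : ℝ) := by push_cast; positivity
        have h7 := Real.log_le_log h5 h4
        rw [Real.log_mul (by norm_num) h6.ne'] at h7
        have := Real.log_two_lt_d9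
        linarith
      have e4 : Real.log ((2 * k : ℕ) : ℝ) ≤ Real.log ((2 * k + 1 : ℕ) : ℝ) := by
        apply Real.log_le_log
        · push_cast; positivity
        · push_cast; linarith
      have e40 : Real.log (k : ℝ) ≤ Real.log ((2 * k + 1 : ℕ) : ℝ) := by
        apply Real.log_le_log hk0
        push_cast; linarith
      have e5 : |β * Real.log ((2 * k : ℕ) : ℝ) - β * Real.log ((2 * k + 1 : ℕ) : ℝ)| ≤ |β| := by
        rw [← mul_sub, abs_mul]
        refine mul_le_of_le_one_right (abs_nonneg β) ?_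
        rw [abs_sub_comm, abs_of_nonneg (by linarith)]
        linarith
      have e6 : Real.log (c (2 * k + 1) / μ ^ (2 * k + 1)) - β * Real.log ((2 * k + 1 : ℕ) : ℝ) =
          (Real.log (c (2 * k + 1) / μ ^ (2 * k + 1)) - Real.log (c (2 * k) / μ ^ (2 * k))) +
          (Real.log (c (2 * k) / μ ^ (2 * k)) - β * Real.log ((2 * k : ℕ) : ℝ)) +
          (β * Real.log ((2 * k : ℕ) : ℝ) - β * Real.log ((2 * k + 1 : ℕ) : ℝ)) := by ring
      rw [e6]
      refine (abs_add_three _ _ _).trans ?_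
      have h8 : B ≤ |B| := le_abs_self B
      have h9 := mul_le_mul_of_nonneg_left e40 (show 0 ≤ ε / 2 by positivity)
      linarith
  rw [Metric.tendsto_atTop']
  intro ε hε
  obtain ⟨N, hN⟩ := eventually_atTop.1 (key (ε / 2) (by positivity))
  refine ⟨N + 1, fun n hn => ?_⟩
  have hn1 : (1 : ℝ) < n := by exact_mod_cast (show 1 < n by omega)
  have hln : 0 < Real.log (n : ℝ) := Real.log_pos hn1
  rw [Real.dist_eq]
  have h6 : Real.log (c n / μ ^ n) / Real.log n - β =
      (Real.log (c n / μ ^ n) - β * Real.log n) / Real.log n := by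
    field_simp
  rw [h6, abs_div, abs_of_pos hln, div_lt_iff₀ hln]
  refine (hN n (by omega)).trans_lt ?_
  nlinarith

/-! ### the non-intersection probability -/

theorem iter_tend (f : ℕ → ℝ) (hf : Tendsto (fun n : ℕ => f n / n) atTop (𝓝 0)) (n : ℕ)
    (hn : 1 ≤ n) : Tendsto (fun J : ℕ => f (2 ^ J * n) / 2 ^ J) atTop (𝓝 0) := by
  have ht : Tendsto (fun J : ℕ => 2 ^ J * n) atTop atTop := by
    refine tendsto_atTop_mono (fun J => ?_) tendsto_id
    have h1 : J < 2 ^ J := Nat.lt_two_pow_self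
    have h2 : 2 ^ J * 1 ≤ 2 ^ J * n := Nat.mul_le_mul_left _ hn
    simp only [id]
    omega
  have h1 := (hf.comp ht).mul_const (n : ℝ)
  rw [zero_mul] at h1
  refine h1.congr fun J => ?_
  have hn0 : (n : ℝ) ≠ 0 := by exact_mod_cast (show n ≠ 0 by omega)
  simp only [Function.comp]
  push_cast
  field_simp

/-- if `2 h(m) ≤ h(2m)` along `m = 2^J n` and `h(m) = o(m)`, then `h(n) ≤ 0` -/
theorem nonpos_of_double (f : ℕ → ℝ) (hf : Tendsto (fun n : ℕ => f n / n) atTop (𝓝 0)) (n : ℕ)
    (hn : 1 ≤ n) (h : ∀ J : ℕ, 2 * f (2 ^ J * n) ≤ f (2 * (2 ^ J * n))) : f n ≤ 0 := by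
  have h1 : ∀ J : ℕ, f n ≤ f (2 ^ J * n) / 2 ^ J := by
    intro J
    induction J with
    | zero => simp
    | succ J ih =>
      refine ih.trans ?_
      have h2 := h J
      rw [show 2 ^ (J + 1) * n = 2 * (2 ^ J * n) by ring, pow_succ,
        div_le_div_iff₀ (by positivity) (by positivity)]
      have h3 : (0 : ℝ) < 2 ^ J := by positivity
      nlinarith
  exact ge_of_tendsto' (iter_tend f hf n hn) h1

/-- the normalised count and the logarithm of the non-intersection probability -/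
theorem Wk.log_ratio (W : Wk c μ) (n : ℕ) : Real.log (c (2 * n) / c n ^ 2) =
    Real.log (c (2 * n) / μ ^ (2 * n)) - 2 * Real.log (c n / μ ^ n) := by
  have hμ := W.hμ
  have h1 := W.cpos n
  have h2 := W.cpos (2 * n)
  rw [Real.log_div h2.ne' (by positivity), Real.log_div h2.ne' (by positivity),
    Real.log_div h1.ne' (by positivity), Real.log_pow, Real.log_pow, Real.log_pow]
  push_cast
  ring

theorem Wk.h_sub (W : Wk c μ) (a : ℝ) : Tendsto (fun n : ℕ => (Real.log (c n / μ ^ n) -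
    a * (Real.log n + Real.log 2)) / n) atTop (𝓝 0) := by
  have h1 := W.sub.sub ((log_over.add (tendsto_const_div_atTop_nhds_zero_nat
    (Real.log 2))).const_mul a)
  rw [add_zero, mul_zero, sub_zero] at h1
  refine h1.congr fun n => ?_
  rw [sub_div, mul_div_assoc, add_div]

/-- a power lower bound for the non-intersection probability gives a power upper bound for
`μ^(-n) c n` -/
theorem Wk.upper (W : Wk c μ) (S : Set ℕ) (hd : ∀ n ∈ S, 2 * n ∈ S) (a : ℝ) (N : ℕ)
    (h : ∀ n ∈ S, N ≤ n → -(a * Real.log n) ≤ Real.log (c (2 * n) / c n ^ 2)) (n : ℕ)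
    (hnS : n ∈ S) (hn : N ≤ n) (hn1 : 1 ≤ n) :
    Real.log (c n / μ ^ n) ≤ a * (Real.log n + Real.log 2) := by
  have hJ : ∀ J : ℕ, 2 ^ J * n ∈ S ∧ N ≤ 2 ^ J * n ∧ 1 ≤ 2 ^ J * n := by
    intro J
    induction J with
    | zero => simpa using ⟨hnS, hn, hn1⟩
    | succ J ih =>
      rw [show 2 ^ (J + 1) * n = 2 * (2 ^ J * n) by ring]
      exact ⟨hd _ ih.1, by omega, by omega⟩
  have := nonpos_of_double (fun n : ℕ => Real.log (c n / μ ^ n) -
    a * (Real.log n + Real.log 2)) (W.h_sub a) n hn1 (fun J => by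
      obtain ⟨h1, h2, h3⟩ := hJ J
      have h4 := h _ h1 h2
      rw [W.log_ratio] at h4
      have h0 : (0 : ℝ) < ((2 ^ J * n : ℕ) : ℝ) := by exact_mod_cast h3
      have e : Real.log ((2 * (2 ^ J * n) : ℕ) : ℝ) =
          Real.log 2 + Real.log ((2 ^ J * n : ℕ) : ℝ) := by
        rw [Nat.cast_mul, Real.log_mul (by norm_num) h0.ne']
        norm_num
      rw [e]
      linarith)
  linarith

/-- a power upper bound for the non-intersection probability gives a power lower bound for
`μ^(-n) c n` -/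
theorem Wk.lower (W : Wk c μ) (S : Set ℕ) (hd : ∀ n ∈ S, 2 * n ∈ S) (a : ℝ) (N : ℕ)
    (h : ∀ n ∈ S, N ≤ n → Real.log (c (2 * n) / c n ^ 2) ≤ -(a * Real.log n)) (n : ℕ)
    (hnS : n ∈ S) (hn : N ≤ n) (hn1 : 1 ≤ n) :
    a * (Real.log n + Real.log 2) ≤ Real.log (c n / μ ^ n) := by
  have hJ : ∀ J : ℕ, 2 ^ J * n ∈ S ∧ N ≤ 2 ^ J * n ∧ 1 ≤ 2 ^ J * n := by
    intro J
    induction J with
    | zero => simpa using ⟨hnS, hn, hn1⟩
    | succ J ih =>
      rw [show 2 ^ (J + 1) * n = 2 * (2 ^ J * n) by ring]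
      exact ⟨hd _ ih.1, by omega, by omega⟩
  have hs := (W.h_sub a).neg
  rw [neg_zero] at hs
  have := nonpos_of_double (fun n : ℕ => -(Real.log (c n / μ ^ n) -
    a * (Real.log n + Real.log 2))) (hs.congr fun n => by rw [neg_div]) n hn1 (fun J => by
      obtain ⟨h1, h2, h3⟩ := hJ J
      have h4 := h _ h1 h2
      rw [W.log_ratio] at h4
      have h0 : (0 : ℝ) < ((2 ^ J * n : ℕ) : ℝ) := by exact_mod_cast h3
      have e : Real.log ((2 * (2 ^ J * n) : ℕ) : ℝ) =
          Real.log 2 + Real.log ((2 ^ J * n : ℕ) : ℝ) := by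
        rw [Nat.cast_mul, Real.log_mul (by norm_num) h0.ne']
        norm_num
      rw [e]
      linarith)
  linarith

/-- the exponent of the non-intersection probability along a set closed under doubling is the
exponent of `μ^(-n) c n` along this set -/
theorem Wk.along (W : Wk c μ) (S : Set ℕ) (hd : ∀ n ∈ S, 2 * n ∈ S) (β : ℝ)
    (h : Tendsto (fun n : ℕ => Real.log (c (2 * n) / c n ^ 2) / Real.log n) (atTop ⊓ 𝓟 S)
      (𝓝 (-β))) :
    Tendsto (fun n : ℕ => Real.log (c n / μ ^ n) / Real.log n) (atTop ⊓ 𝓟 S) (𝓝 β) := by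
  rw [Metric.tendsto_nhds] at h ⊢
  intro ε hε
  have h1 := h (ε / 2) (by positivity)
  rw [eventually_inf_principal] at h1 ⊢
  obtain ⟨N, hN⟩ := eventually_atTop.1 h1
  have key : ∀ n ∈ S, N + 2 ≤ n →
      -((β + ε / 2) * Real.log n) ≤ Real.log (c (2 * n) / c n ^ 2) ∧
      Real.log (c (2 * n) / c n ^ 2) ≤ -((β - ε / 2) * Real.log n) := by
    intro n hnS hn
    have h2 := hN n (by omega) hnS
    have hn1 : (1 : ℝ) < n := by exact_mod_cast (show 1 < n by omega)
    have hln : 0 < Real.log (n : ℝ) := Real.log_pos hn1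
    rw [Real.dist_eq, abs_lt] at h2
    obtain ⟨h3, h4⟩ := h2
    have e : Real.log (c (2 * n) / c n ^ 2) =
        Real.log (c (2 * n) / c n ^ 2) / Real.log n * Real.log n := by field_simp
    rw [e]
    constructor
    · nlinarith
    · nlinarith
  have hbig : ∀ᶠ n : ℕ in atTop, (|β| + ε) * 2 < ε / 2 * Real.log (n : ℝ) := by
    have h1 : Tendsto (fun k : ℕ => ε / 2 * Real.log (k : ℝ)) atTop atTop :=
      (Real.tendsto_log_atTop.comp tendsto_natCast_atTop_atTop).const_mul_atTop (by positivity)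
    exact h1.eventually_gt_atTop _
  filter_upwards [hbig, eventually_ge_atTop (N + 2)] with n hnb hn hnS
  have hn1 : (1 : ℝ) < n := by exact_mod_cast (show 1 < n by omega)
  have hln : 0 < Real.log (n : ℝ) := Real.log_pos hn1
  have u1 := W.upper S hd (β + ε / 2) (N + 2) (fun m hm hm2 => (key m hm hm2).1) n hnS hn
    (by omega)
  have u2 := W.lower S hd (β - ε / 2) (N + 2) (fun m hm hm2 => (key m hm hm2).2) n hnS hn
    (by omega)
  have h2a : 0 < Real.log 2 := Real.log_pos (by norm_num)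
  have h2b : Real.log 2 ≤ 1 := by
    have := Real.log_two_lt_d9
    linarith
  have a1 := neg_abs_le β
  have a2 := le_abs_self β
  rw [Real.dist_eq, abs_lt]
  constructor
  · rw [lt_sub_iff_add_lt, lt_div_iff₀ hln]
    nlinarith
  · rw [sub_lt_iff_lt_add, div_lt_iff₀ hln]
    nlinarith

/-- the exponent of `μ^(-n) c n` is the exponent of the non-intersection probability -/
theorem Wk.conv (W : Wk c μ) (β : ℝ)
    (h : Tendsto (fun n : ℕ => Real.log (c n / μ ^ n) / Real.log n) atTop (𝓝 β)) :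
    Tendsto (fun n : ℕ => Real.log (c (2 * n) / c n ^ 2) / Real.log n) atTop (𝓝 (-β)) := by
  have ht : Tendsto (fun n : ℕ => 2 * n) atTop atTop := tend_len 0
  have h1 := h.comp ht
  have h2 : Tendsto (fun n : ℕ => Real.log ((2 * n : ℕ) : ℝ) / Real.log n) atTop (𝓝 1) := by
    have h3 : Tendsto (fun n : ℕ => Real.log 2 / Real.log (n : ℝ)) atTop (𝓝 0) :=
      (tendsto_const_nhds).div_atTop (Real.tendsto_log_atTop.comp tendsto_natCast_atTop_atTop)
    have h4 := h3.add_const 1
    rw [zero_add] at h4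
    refine h4.congr' ?_
    filter_upwards [eventually_gt_atTop 1] with n hn
    have hn1 : (1 : ℝ) < n := by exact_mod_cast hn
    have hln : 0 < Real.log (n : ℝ) := Real.log_pos hn1
    push_cast
    rw [Real.log_mul (by norm_num) (by positivity), add_div, div_self hln.ne']
  have h5 := (h1.mul h2).sub (h.const_mul 2)
  rw [mul_one, show β - 2 * β = -β by ring] at h5
  refine h5.congr' ?_
  filter_upwards [eventually_gt_atTop 1] with n hn
  have hn1 : (1 : ℝ) < n := by exact_mod_cast hn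
  have hln : 0 < Real.log (n : ℝ) := Real.log_pos hn1
  have hln2 : 0 < Real.log ((2 * n : ℕ) : ℝ) := Real.log_pos (by push_cast; linarith)
  rw [W.log_ratio]
  simp only [Function.comp]
  field_simp

end Pool.Agent.Y943.SL
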