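import Pool.Agent.Y943.SL.Two
import Pool.Agent.TH966.AK.HexFin

/-!
# Self-avoiding walks on the triangular and the honeycomb lattice satisfy the assumptions
-/

set_option autoImplicit false

namespace Pool.Agent.Y943.SL

open Filter Topology TH966.AK

theorem log_sqrt_tend : Tendsto (fun n : ℕ => Real.log n / √(n : ℝ)) atTop (𝓝 0) := by
  have h1 : Tendsto (fun x : ℝ => Real.log x / x ^ (1 / 2 : ℝ)) atTop (𝓝 0) :=
    (isLittleO_log_rpow_atTop (by norm_num)).tendsto_div_nhds_zero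
  have h2 := h1.comp tendsto_natCast_atTop_atTop
  refine h2.congr fun n => ?_
  simp only [Function.comp]
  rw [Real.sqrt_eq_rpow]

/-- from one step to two steps -/
theorem two_step {c : ℕ → ℝ} (hc : ∀ n, 0 < c n) {D : ℝ} (hD : 0 ≤ D) {N : ℕ}
    (h : ∀ n, N ≤ n → c (n + 1) ^ 2 ≤ c n * c (n + 2) * (1 + D / n)) :
    ∃ D' : ℝ, 0 ≤ D' ∧ ∀ᶠ n : ℕ in atTop, c (n + 2) ^ 2 ≤ c n * c (n + 4) * (1 + D' / n) := by
  refine ⟨15 * D, by positivity, ?_⟩
  filter_upwards [eventually_ge_atTop (N + 1), eventually_ge_atTop ⌈D⌉₊] with n hn hnD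
  have hn0 : (0 : ℝ) < n := by exact_mod_cast (show 0 < n by omega)
  have hDn : D ≤ n := (Nat.le_ceil D).trans (by exact_mod_cast hnD)
  obtain ⟨t, ht⟩ : ∃ t, t = D / (n : ℝ) := ⟨_, rfl⟩
  have ht0 : 0 ≤ t := by rw [ht]; positivity
  have ht1 : t ≤ 1 := by rw [ht, div_le_one hn0]; exact hDn
  have hstep : ∀ m, n ≤ m → c (m + 1) ^ 2 ≤ c m * c (m + 2) * (1 + t) := by
    intro m hm
    have hm0 : (n : ℝ) ≤ m := by exact_mod_cast hm
    refine (h m (by omega)).trans ?_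
    refine mul_le_mul_of_nonneg_left ?_ (mul_pos (hc _) (hc _)).le
    rw [ht]
    have := div_le_div_of_nonneg_left hD hn0 hm0
    linarith
  have h1 := hstep n le_rfl
  have h2 := hstep (n + 1) (by omega)
  have h3 := hstep (n + 2) (by omega)
  rw [show n + 1 + 1 = n + 2 from rfl, show n + 1 + 2 = n + 3 from rfl] at h2
  rw [show n + 2 + 1 = n + 3 from rfl, show n + 2 + 2 = n + 4 from rfl] at h3
  have c0 := hc n
  have c1 := hc (n + 1)
  have c2 := hc (n + 2)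
  have c3 := hc (n + 3)
  have c4 := hc (n + 4)
  set g := 1 + t with hg
  have hg1 : 1 ≤ g := by linarith
  have h4 : c (n + 2) ^ 4 ≤ (c n * c (n + 4) * g ^ 4) * c (n + 2) ^ 2 := by
    calc c (n + 2) ^ 4 = (c (n + 2) ^ 2) ^ 2 := by ring
      _ ≤ (c (n + 1) * c (n + 3) * g) ^ 2 := pow_le_pow_left₀ (by positivity) h2 2
      _ = (c (n + 1) ^ 2 * c (n + 3) ^ 2) * g ^ 2 := by ring
      _ ≤ ((c n * c (n + 2) * g) * (c (n + 2) * c (n + 4) * g)) * g ^ 2 := by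
          refine mul_le_mul_of_nonneg_right ?_ (by positivity)
          exact mul_le_mul h1 h3 (by positivity) (by positivity)
      _ = (c n * c (n + 4) * g ^ 4) * c (n + 2) ^ 2 := by ring
  have h5 : c (n + 2) ^ 2 ≤ c n * c (n + 4) * g ^ 4 := by
    have e : c (n + 2) ^ 4 = c (n + 2) ^ 2 * c (n + 2) ^ 2 := by ring
    rw [e] at h4
    exact le_of_mul_le_mul_right h4 (by positivity)
  refine h5.trans (mul_le_mul_of_nonneg_left ?_ (by positivity))
  have e : 15 * D / n = 15 * t := by rw [ht]; ring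
  have t2 : t ^ 2 ≤ t := by nlinarith
  have t3 : t ^ 3 ≤ t := by
    have : t ^ 3 = t * t ^ 2 := by ring
    rw [this]; nlinarith
  have t4 : t ^ 4 ≤ t := by
    have : t ^ 4 = t * t ^ 3 := by ring
    rw [this]; nlinarith
  have e4 : (1 + t) ^ 4 = 1 + 4 * t + 6 * t ^ 2 + 4 * t ^ 3 + t ^ 4 := by ring
  rw [e, hg, e4]
  linarith

theorem cexp {A : P → P → Prop} {Z : Rule A} {μ K : ℝ} (G : Growth Z μ K) (n : ℕ) :
    0 < ((Kw A n).card : ℝ) :=
  lt_of_lt_of_le (pow_pos (by linarith [G.hμ]) n) (G.low n)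

theorem ofOne {A : P → P → Prop} {Z : Rule A} {μ K : ℝ} (G : Growth Z μ K) (hs : Z.s = 1)
    (mult : ∀ m n, ((Kw A (m + n)).card : ℝ) ≤ (Kw A m).card * (Kw A n).card)
    (root : Tendsto (fun n : ℕ => ((Kw A n).card : ℝ) ^ (1 / (n : ℝ))) atTop (𝓝 μ)) :
    Wk (fun n => ((Kw A n).card : ℝ)) μ := by
  have hμ : 0 < μ := by linarith [G.hμ]
  have hc := fun n => cexp G n
  refine mk (c := fun n => ((Kw A n).card : ℝ)) hμ G.low mult root (μ ^ 2 / 4) (by positivity) ?_ ?_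
  · obtain ⟨R, hR⟩ := G.rate1 hs
    have h1 := log_sqrt_tend.const_mul R
    rw [mul_zero] at h1
    have h2 : ∀ᶠ n : ℕ in atTop, μ / 2 * ((Kw A n).card : ℝ) ≤ (Kw A (n + 1)).card := by
      filter_upwards [h1.eventually_lt_const (show 0 < μ / 2 by positivity),
        eventually_ge_atTop 2] with n h2 h3
      have h5 := (abs_le.1 (hR n h3)).1
      have h6 : μ / 2 ≤ ((Kw A (n + 1)).card : ℝ) / (Kw A n).card := by linarith
      rwa [le_div_iff₀ (hc n)] at h6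
    obtain ⟨N, hN⟩ := eventually_atTop.1 h2
    filter_upwards [eventually_ge_atTop N] with n hn
    have a1 := hN n hn
    have a2 := hN (n + 1) (by omega)
    calc μ ^ 2 / 4 * ((Kw A n).card : ℝ) = μ / 2 * (μ / 2 * (Kw A n).card) := by ring
      _ ≤ μ / 2 * (Kw A (n + 1)).card := mul_le_mul_of_nonneg_left a1 (by positivity)
      _ ≤ _ := a2
  · obtain ⟨D, hD, hk⟩ := G.kes
    obtain ⟨k0, hk0⟩ := hk 0
    refine two_step (c := fun n => ((Kw A n).card : ℝ)) hc hD (N := k0) fun n hn => ?_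
    have hy := G.yy_ge 0 (n + 1)
    have h1 := hk0 n hn (le_trans (pow_le_one₀ (by norm_num) (by norm_num)) hy)
    unfold yy at h1
    rw [hs] at h1
    simp only [one_mul, add_zero] at h1
    have e3 : μ ^ n * μ ^ (n + 2) = (μ ^ (n + 1)) ^ 2 := by
      rw [← pow_add, ← pow_mul]
      congr 1
      ring
    rw [div_pow, div_mul_div_comm, e3, div_mul_eq_mul_div] at h1
    exact (div_le_div_iff_of_pos_right (by positivity)).1 h1

theorem ofTwo {A : P → P → Prop} {Z : Rule A} {μ K : ℝ} (G : Growth Z μ K) (hs : Z.s = 2)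
    (mult : ∀ m n, ((Kw A (m + n)).card : ℝ) ≤ (Kw A m).card * (Kw A n).card)
    (root : Tendsto (fun n : ℕ => ((Kw A n).card : ℝ) ^ (1 / (n : ℝ))) atTop (𝓝 μ)) :
    Wk (fun n => ((Kw A n).card : ℝ)) μ := by
  have hμ : 0 < μ := by linarith [G.hμ]
  have hc := fun n => cexp G n
  refine mk (c := fun n => ((Kw A n).card : ℝ)) hμ G.low mult root (μ ^ 2 / 2) (by positivity) ?_ ?_
  · obtain ⟨R, hR⟩ := G.rate2 hs
    have h1 := log_sqrt_tend.const_mul R
    rw [mul_zero] at h1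
    filter_upwards [h1.eventually_lt_const (show 0 < μ ^ 2 / 2 by positivity),
      eventually_ge_atTop 2] with n h2 h3
    have h5 := (abs_le.1 (hR n h3)).1
    have h6 : μ ^ 2 / 2 ≤ ((Kw A (n + 2)).card : ℝ) / (Kw A n).card := by linarith
    rwa [le_div_iff₀ (hc n)] at h6
  · obtain ⟨D, hD, hk⟩ := G.kes
    obtain ⟨k0, hk0⟩ := hk 0
    obtain ⟨k1, hk1⟩ := hk 1
    refine ⟨3 * D, by positivity, ?_⟩
    filter_upwards [eventually_ge_atTop (2 * k0 + 2 * k1 + 4)] with n hn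
    have key : ∀ k r : ℕ, 1 ≤ k → r ≤ 1 → (∃ k2, k2 ≤ k ∧ TH966.KS.Kes (yy A μ Z.s r) D (1 / 2) k2) →
        ((Kw A (2 * k + r + 2)).card : ℝ) ^ 2 ≤ (Kw A (2 * k + r)).card *
          (Kw A (2 * k + r + 4)).card * (1 + 3 * D / ((2 * k + r : ℕ) : ℝ)) := by
      rintro k r hk1' hr ⟨k2, hk2, hkes⟩
      have hy := G.yy_ge r (k + 1)
      have h1 := hkes k hk2 (le_trans (pow_le_one₀ (by norm_num) (by norm_num)) hy)
      unfold yy at h1
      rw [hs] at h1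
      have e1 : 2 * (k + 1) + r = 2 * k + r + 2 := by ring
      have e2 : 2 * (k + 2) + r = 2 * k + r + 4 := by ring
      rw [e1, e2] at h1
      have e3 : μ ^ (2 * k + r) * μ ^ (2 * k + r + 4) = (μ ^ (2 * k + r + 2)) ^ 2 := by
        rw [← pow_add, ← pow_mul]
        congr 1
        ring
      rw [div_pow, div_mul_div_comm, e3, div_mul_eq_mul_div] at h1
      have h2 := (div_le_div_iff_of_pos_right (by positivity)).1 h1
      refine h2.trans (mul_le_mul_of_nonneg_left ?_ (by positivity))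
      have hk0' : (0 : ℝ) < k := by exact_mod_cast (show 0 < k by omega)
      have hn0 : (0 : ℝ) < ((2 * k + r : ℕ) : ℝ) := by exact_mod_cast (show 0 < 2 * k + r by omega)
      have : D / k ≤ 3 * D / ((2 * k + r : ℕ) : ℝ) := by
        rw [div_le_div_iff₀ hk0' hn0]
        have h3 : ((2 * k + r : ℕ) : ℝ) ≤ 3 * k := by exact_mod_cast (show 2 * k + r ≤ 3 * k by omega)
        nlinarith
      linarith
    rcases Nat.even_or_odd' n with ⟨k, rfl | rfl⟩
    · exact key k 0 (by omega) (by omega) ⟨k0, by omega, hk0⟩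
    · exact key k 1 (by omega) (by omega) ⟨k1, by omega, hk1⟩

/-- submultiplicativity and the growth constant for a lattice with coordinates -/
theorem facts [L : H982.Lat] {Adj : ℤ × ℤ → ℤ × ℤ → Prop} {φ : ℤ × ℤ → ℤ × ℤ}
    {R : ℕ → ℤ × ℤ → Prop} (H : H982.Coord Adj φ R) (a : ℕ → ℕ)
    (ha : ∀ n : ℕ, a n = Set.ncard {f : Fin (n + 1) → ℤ × ℤ |
            f 0 = 0 ∧ Function.Injective f ∧
            ∀ i : Fin n, Adj (f i.castSucc) (f i.succ)}) (μ : ℝ)
    (hμ : μ = (⨅ n : {n : ℕ // 1 ≤ n}, ((a n.1 : ℝ) ^ ((1 : ℝ) / (n.1 : ℝ))))) :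
    (∀ m n : ℕ, (a (m + n) : ℝ) ≤ a m * a n) ∧
      Tendsto (fun n : ℕ => (a n : ℝ) ^ (1 / (n : ℝ))) atTop (𝓝 μ) := by
  have ha' : ∀ n, a n = (H982.walks Adj n).ncard := ha
  have hμ' : μ = H982.mu := by
    rw [hμ, ← H982.mu_eq_iInf H]
    congr 1
    funext n
    rw [ha']
  have hc : ∀ n, (a n : ℝ) = H982.cr' n := fun n => by rw [ha', H982.ncard_walks H]
  simp only [hc, hμ']
  exact ⟨H982.cr'_mul, H982.tendsto_root⟩

theorem wk_tri (a : ℕ → ℕ)
    (ha : ∀ n : ℕ, a n = Set.ncard {f : Fin (n + 1) → ℤ × ℤ |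
            f 0 = 0 ∧ Function.Injective f ∧
            ∀ i : Fin n, AdjT (f i.castSucc) (f i.succ)}) (μ : ℝ)
    (hμ : μ = (⨅ n : {n : ℕ // 1 ≤ n}, ((a n.1 : ℝ) ^ ((1 : ℝ) / (n.1 : ℝ))))) :
    Wk (fun n => (a n : ℝ)) μ ∧ Tendsto (fun n : ℕ => (a n : ℝ) ^ (1 / (n : ℝ))) atTop (𝓝 μ) := by
  obtain ⟨hm, hr⟩ := facts (L := H982P.triL) H982P.coord_tri a ha μ hμ
  obtain ⟨hc, K, G⟩ := tri_growth a ha μ hμ
  refine ⟨?_, hr⟩
  have h := ofOne G rfl (by simpa only [hc] using hm) (by simpa only [hc] using hr)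
  simpa only [hc] using h

theorem wk_hex (a : ℕ → ℕ)
    (ha : ∀ n : ℕ, a n = Set.ncard {f : Fin (n + 1) → ℤ × ℤ |
            f 0 = 0 ∧ Function.Injective f ∧
            ∀ i : Fin n, AdjH (f i.castSucc) (f i.succ)}) (μ : ℝ)
    (hμ : μ = (⨅ n : {n : ℕ // 1 ≤ n}, ((a n.1 : ℝ) ^ ((1 : ℝ) / (n.1 : ℝ))))) :
    Wk (fun n => (a n : ℝ)) μ ∧ Tendsto (fun n : ℕ => (a n : ℝ) ^ (1 / (n : ℝ))) atTop (𝓝 μ) ∧
      μ = Real.sqrt (2 + Real.sqrt 2) := by
  obtain ⟨hm, hr⟩ := facts (L := H982P.hexL) H982P.coord_hex a ha μ hμ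
  have hμ2 : μ = Real.sqrt (2 + Real.sqrt 2) := by rw [hμ, hex_mu a ha]
  obtain ⟨hc, K, G⟩ := hex_growth a ha
  rw [← hμ2] at G
  refine ⟨?_, hr, hμ2⟩
  have h := ofTwo G rfl (by simpa only [hc] using hm) (by simpa only [hc] using hr)
  simpa only [hc] using h

theorem wk_sq (a : ℕ → ℕ)
    (ha : ∀ n : ℕ, a n = Set.ncard {f : Fin (n + 1) → ℤ × ℤ |
            f 0 = 0 ∧ Function.Injective f ∧
            ∀ i : Fin n, (fun p q : ℤ × ℤ => |p.1 - q.1| + |p.2 - q.2| = 1) (f i.castSucc)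
              (f i.succ)}) (μ : ℝ)
    (hμ : μ = (⨅ n : {n : ℕ // 1 ≤ n}, ((a n.1 : ℝ) ^ ((1 : ℝ) / (n.1 : ℝ))))) :
    Wk (fun n => (a n : ℝ)) μ ∧ Tendsto (fun n : ℕ => (a n : ℝ) ^ (1 / (n : ℝ))) atTop (𝓝 μ) := by
  obtain ⟨hm, hr⟩ := facts (L := H982P.sqL) H982P.coord_sq a ha μ hμ
  have hc : ∀ n, (a n : ℝ) = H981.cr' n := by
    intro n
    rw [H981.cr'_eq]
    congr 1
    rw [ha n, H981.C, ← Nat.card_coe_set_eq]
    refine Nat.card_congr (Equiv.subtypeEquivRight fun f => ?_)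
    unfold H981.IsSAW
    constructor
    · rintro ⟨h0, hi, hs⟩
      refine ⟨h0, fun i => ?_, hi⟩
      have := hs i
      simp only at this
      rw [abs_sub_comm, abs_sub_comm (f i.succ).2]
      exact this
    · rintro ⟨h0, hs, hi⟩
      refine ⟨h0, hi, fun i => ?_⟩
      have := hs i
      rw [abs_sub_comm, abs_sub_comm (f i.succ).2] at this
      exact this
  refine ⟨?_, hr⟩
  have h1 : μ = H981.mu := by
    refine tendsto_nhds_unique hr ?_
    simpa only [hc] using H981.tendsto_root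
  rw [h1]
  simpa only [hc] using two

end Pool.Agent.Y943.SL
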