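import Pool.Agent.Y943.SL.Abs

/-!
# The assumptions from submultiplicativity, the growth constant and Kesten's inequality
-/

set_option autoImplicit false

namespace Pool.Agent.Y943.SL

open Filter Topology TH966.KS

theorem mk {c : ℕ → ℝ} {μ : ℝ} (hμ : 0 < μ) (low : ∀ n, μ ^ n ≤ c n)
    (mult : ∀ m n, c (m + n) ≤ c m * c n)
    (root : Tendsto (fun n : ℕ => c n ^ (1 / (n : ℝ))) atTop (𝓝 μ))
    (a : ℝ) (ha : 0 < a) (ratio : ∀ᶠ n : ℕ in atTop, a * c n ≤ c (n + 2))
    (kest : ∃ D : ℝ, 0 ≤ D ∧ ∀ᶠ n : ℕ in atTop, c (n + 2) ^ 2 ≤ c n * c (n + 4) * (1 + D / n)) :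
    Wk c μ := by
  have hc : ∀ n, 0 < c n := fun n => lt_of_lt_of_le (pow_pos hμ n) (low n)
  have hr : ∀ n, 0 < c n / μ ^ n := fun n => div_pos (hc n) (pow_pos hμ n)
  refine ⟨hμ, low, ?_, ?_, ?_⟩
  · obtain ⟨D, hD0, hD⟩ := kest
    obtain ⟨N, hN⟩ := eventually_atTop.1 hD
    refine ⟨D, hD0, fun s _ => ⟨N + 1, fun k hk _ => ?_⟩⟩
    have h1 := hN (2 * k + s) (by omega)
    have hk0 : (0 : ℝ) < k := by exact_mod_cast (show 0 < k by omega)
    have e1 : 2 * k + s + 2 = 2 * (k + 1) + s := by ring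
    have e2 : 2 * k + s + 4 = 2 * (k + 2) + s := by ring
    rw [e1, e2] at h1
    have hg : (1 + D / ((2 * k + s : ℕ) : ℝ)) ≤ 1 + D / k := by
      have : D / ((2 * k + s : ℕ) : ℝ) ≤ D / k := by
        apply div_le_div_of_nonneg_left hD0 hk0
        push_cast
        have : (0 : ℝ) ≤ s := Nat.cast_nonneg s
        linarith
      linarith
    have h2 : c (2 * (k + 1) + s) ^ 2 ≤ c (2 * k + s) * c (2 * (k + 2) + s) * (1 + D / k) :=
      h1.trans (mul_le_mul_of_nonneg_left hg (mul_pos (hc _) (hc _)).le)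
    have e3 : μ ^ (2 * k + s) * μ ^ (2 * (k + 2) + s) = (μ ^ (2 * (k + 1) + s)) ^ 2 := by
      rw [← pow_add, ← pow_mul]
      congr 1
      ring
    simp only
    rw [div_pow, div_mul_div_comm, e3, div_mul_eq_mul_div]
    exact div_le_div_of_nonneg_right h2 (by positivity)
  · have h1 : ∀ n, Real.log (c (n + 1) / μ ^ (n + 1)) ≤
        Real.log (c n / μ ^ n) + Real.log (c 1 / μ ^ 1) := by
      intro n
      rw [← Real.log_mul (hr n).ne' (hr 1).ne']
      refine Real.log_le_log (hr _) ?_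
      rw [div_mul_div_comm, ← pow_add]
      exact div_le_div_of_nonneg_right (mult n 1) (pow_pos hμ _).le
    obtain ⟨N, hN⟩ := eventually_atTop.1 ratio
    have h2 : ∀ n, N ≤ n → Real.log (c n / μ ^ n) + Real.log (a / μ ^ 2) ≤
        Real.log (c (n + 2) / μ ^ (n + 2)) := by
      intro n hn
      have h3 : 0 < a / μ ^ 2 := by positivity
      rw [← Real.log_mul (hr n).ne' h3.ne']
      refine Real.log_le_log (mul_pos (hr n) h3) ?_
      rw [div_mul_div_comm, ← pow_add, mul_comm (c n)]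
      exact div_le_div_of_nonneg_right (hN n hn) (pow_pos hμ _).le
    set L := |Real.log (c 1 / μ ^ 1)| + |Real.log (a / μ ^ 2)| with hL
    refine ⟨L + ∑ m ∈ Finset.range N,
      |Real.log (c (m + 1) / μ ^ (m + 1)) - Real.log (c m / μ ^ m)|, fun n _ => ?_⟩
    have hs0 : 0 ≤ ∑ m ∈ Finset.range N,
        |Real.log (c (m + 1) / μ ^ (m + 1)) - Real.log (c m / μ ^ m)| :=
      Finset.sum_nonneg fun _ _ => abs_nonneg _
    have hL0 : 0 ≤ L := by positivity
    rcases Nat.lt_or_ge n N with h | h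
    · have := Finset.single_le_sum (f := fun m =>
        |Real.log (c (m + 1) / μ ^ (m + 1)) - Real.log (c m / μ ^ m)|)
        (fun _ _ => abs_nonneg _) (Finset.mem_range.mpr h)
      linarith
    · have a1 := h1 n
      have a2 := h1 (n + 1)
      have a3 := h2 n h
      have b1 := le_abs_self (Real.log (c 1 / μ ^ 1))
      have b2 := neg_abs_le (Real.log (a / μ ^ 2))
      have b3 := abs_nonneg (Real.log (a / μ ^ 2))
      rw [show n + 1 + 1 = n + 2 from rfl] at a2
      rw [abs_le]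
      constructor <;> linarith
  · have h1 := (root.log hμ.ne').sub_const (Real.log μ)
    rw [sub_self] at h1
    refine h1.congr' ?_
    filter_upwards [eventually_ge_atTop 1] with n hn
    have hn0 : (n : ℝ) ≠ 0 := by exact_mod_cast (show n ≠ 0 by omega)
    rw [Real.log_rpow (hc n), Real.log_div (hc n).ne' (pow_pos hμ n).ne', Real.log_pow]
    field_simp

end Pool.Agent.Y943.SL
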