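import Pool.Agent.Y943.SL.Seq
import Pool.Agent.TH546.PC.Point

/-!
# Self-avoiding polygons: power laws along sets of lengths with gaps of order `√n`
-/

set_option autoImplicit false

namespace Pool.Agent.Y943.SL

open Filter Topology TH966.KS Pool.Agent.W870.Pg Pool.Agent.TH546.PC
open H981 (PP mu mu_pos)

theorem GG_nonneg (n : ℕ) : 0 ≤ GG n := by
  unfold GG Fp
  have h1 : 0 ≤ PP n := by
    unfold PP
    positivity
  have := mu_pos
  positivity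

theorem GG_kes : ∃ D : ℝ, 0 ≤ D ∧ ∃ k0 : ℕ, Kes GG D (1 / 2) k0 := by
  obtain ⟨D, hD, h⟩ := GG_conv
  obtain ⟨N0, hN0, hr⟩ := GG_ratio
  refine ⟨4 * D, by linarith, N0, fun k hk _ => ?_⟩
  have h1 := h k (by omega)
  have h2 := hr k hk
  have h3 := hr (k + 1) (by omega)
  have p0 : 0 < GG k := GG_pos (by omega)
  have p2 : 0 < GG (k + 2) := GG_pos (by omega)
  have hk0 : (0 : ℝ) < k := by exact_mod_cast (show 0 < k by omega)
  have h4 : GG k ^ 2 ≤ 4 * (GG k * GG (k + 2)) := by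
    rw [show k + 1 + 1 = k + 2 by ring] at h3
    nlinarith
  have h5 : D / k * GG k ^ 2 ≤ D / k * (4 * (GG k * GG (k + 2))) :=
    mul_le_mul_of_nonneg_left h4 (by positivity)
  calc GG (k + 1) ^ 2 ≤ GG k * GG (k + 2) + D / k * GG k ^ 2 := h1
    _ ≤ GG k * GG (k + 2) + D / k * (4 * (GG k * GG (k + 2))) := by linarith
    _ = GG k * GG (k + 2) * (1 + 4 * D / k) := by ring

theorem GG_pow (θ : ℝ) {n : ℕ} (hn : 1 ≤ n) : GG n / (n : ℝ) ^ (1 - θ) = Fp n * (n : ℝ) ^ θ := by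
  have hn0 : (0 : ℝ) < n := by exact_mod_cast hn
  have h1 : (0 : ℝ) < (n : ℝ) ^ θ := Real.rpow_pos_of_pos hn0 _
  unfold GG
  rw [Real.rpow_sub hn0, Real.rpow_one]
  field_simp

theorem pol_form (S : Set ℕ)
    (hS : ∀ δ : ℝ, 0 < δ → ∀ᶠ n : ℕ in atTop, ∃ m ∈ S, n ≤ m ∧ (m : ℝ) ≤ n + δ * √n)
    (A θ : ℝ) (hA : 0 < A)
    (h : Tendsto (fun n : ℕ => Fp n * (n : ℝ) ^ θ) (atTop ⊓ 𝓟 S) (𝓝 A)) :
    Tendsto (fun n : ℕ => Fp n * (n : ℝ) ^ θ) atTop (𝓝 A) := by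
  obtain ⟨D, hD, k0, hK⟩ := GG_kes
  have e : ∀ᶠ n : ℕ in atTop, GG n / (n : ℝ) ^ (1 - θ) = Fp n * (n : ℝ) ^ θ := by
    filter_upwards [eventually_ge_atTop 1] with n hn
    exact GG_pow θ hn
  refine (seq_form hK GG_nonneg hD S hS A (1 - θ) hA (h.congr' ?_)).congr' e
  have e' : ∀ᶠ n : ℕ in atTop ⊓ 𝓟 S, GG n / (n : ℝ) ^ (1 - θ) = Fp n * (n : ℝ) ^ θ :=
    e.filter_mono inf_le_left
  filter_upwards [e'] with n hn
  exact hn.symm

theorem pol_log (θ b : ℝ) {n : ℕ} (hn : 2 ≤ n) :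
    Real.log (GG n) - ((1 - θ) * Real.log n + b) = Real.log (Fp n * (n : ℝ) ^ θ) - b := by
  have hn0 : (0 : ℝ) < n := by exact_mod_cast (show 0 < n by omega)
  have h1 : (0 : ℝ) < (n : ℝ) ^ θ := Real.rpow_pos_of_pos hn0 _
  unfold GG
  rw [Real.log_mul hn0.ne' (Fp_pos hn).ne', Real.log_mul (Fp_pos hn).ne' h1.ne',
    Real.log_rpow hn0]
  ring

theorem pol_bdd (S : Set ℕ)
    (hS : ∃ K : ℝ, ∀ᶠ n : ℕ in atTop, ∃ m ∈ S, n ≤ m ∧ (m : ℝ) ≤ n + K * √n)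
    (θ : ℝ)
    (h : ∃ a b : ℝ, 0 < a ∧ ∀ᶠ n : ℕ in atTop, n ∈ S →
      a ≤ Fp n * (n : ℝ) ^ θ ∧ Fp n * (n : ℝ) ^ θ ≤ b) :
    ∃ a b : ℝ, 0 < a ∧ ∀ᶠ n : ℕ in atTop,
      a ≤ Fp n * (n : ℝ) ^ θ ∧ Fp n * (n : ℝ) ^ θ ≤ b := by
  obtain ⟨D, hD, k0, hK⟩ := GG_kes
  obtain ⟨K, hS⟩ := hS
  obtain ⟨a, b, ha, h⟩ := h
  set τ : ℝ := |Real.log a| + |Real.log b| + 1 with hτ
  have hτ0 : 0 < τ := by positivity
  have hst := seq_bdd hK GG_nonneg hD S (|K| + 1) (by positivity)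
    (by
      filter_upwards [hS] with n hn
      obtain ⟨m, h1, h2, h3⟩ := hn
      refine ⟨m, h1, h2, h3.trans ?_⟩
      have : K ≤ |K| + 1 := by linarith [le_abs_self K]
      have h4 : K * √(n : ℝ) ≤ (|K| + 1) * √(n : ℝ) :=
        mul_le_mul_of_nonneg_right this (Real.sqrt_nonneg _)
      linarith)
    (1 - θ) 0 τ hτ0
    (by
      filter_upwards [h, eventually_ge_atTop 2] with n h1 h2 h3
      refine ⟨GG_pos h2, ?_⟩
      rw [pol_log θ 0 h2, sub_zero]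
      obtain ⟨h4, h5⟩ := h1 h3
      have h6 := Real.log_le_log ha h4
      have h7 := Real.log_le_log (ha.trans_le h4) h5
      rw [abs_le]
      have e1 := neg_abs_le (Real.log a)
      have e2 := le_abs_self (Real.log b)
      have e3 := abs_nonneg (Real.log a)
      have e4 := abs_nonneg (Real.log b)
      constructor <;> linarith)
  set M := 9 * τ + 384 * D * (|K| + 1) ^ 2 with hM
  refine ⟨Real.exp (-M), Real.exp M, Real.exp_pos _, ?_⟩
  filter_upwards [hst, eventually_ge_atTop 2] with n h1 h2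
  have h3 := h1.2
  rw [pol_log θ 0 h2, sub_zero, abs_le] at h3
  have hn0 : (0 : ℝ) < n := by exact_mod_cast (show 0 < n by omega)
  have h5 : 0 < Fp n * (n : ℝ) ^ θ := mul_pos (Fp_pos h2) (Real.rpow_pos_of_pos hn0 _)
  exact ⟨(Real.le_log_iff_exp_le h5).1 h3.1, (Real.log_le_iff_le_exp h5).1 h3.2⟩

theorem pol_expo (S : Set ℕ)
    (hS : ∀ δ : ℝ, 0 < δ → ∀ᶠ n : ℕ in atTop, ∃ m ∈ S, n ≤ m ∧
      (m : ℝ) ≤ n + δ * √(n * Real.log n)) (θ : ℝ)
    (h : Tendsto (fun n : ℕ => Real.log (Fp n) / Real.log n) (atTop ⊓ 𝓟 S) (𝓝 (-θ))) :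
    Tendsto (fun n : ℕ => Real.log (Fp n) / Real.log n) atTop (𝓝 (-θ)) := by
  obtain ⟨D, hD, k0, hK⟩ := GG_kes
  have e : ∀ᶠ n : ℕ in atTop, Real.log (GG n) / Real.log n = 1 + Real.log (Fp n) / Real.log n := by
    filter_upwards [eventually_ge_atTop 2] with n hn
    have hn1 : (1 : ℝ) < n := by exact_mod_cast (show 1 < n by omega)
    have hl : 0 < Real.log (n : ℝ) := Real.log_pos hn1
    unfold GG
    rw [Real.log_mul (by positivity) (Fp_pos hn).ne', add_div, div_self hl.ne']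
  have e' : ∀ᶠ n : ℕ in atTop ⊓ 𝓟 S, 1 + Real.log (Fp n) / Real.log n =
      Real.log (GG n) / Real.log n := by
    have e1 : ∀ᶠ n : ℕ in atTop ⊓ 𝓟 S, Real.log (GG n) / Real.log n =
        1 + Real.log (Fp n) / Real.log n := e.filter_mono inf_le_left
    filter_upwards [e1] with n hn
    exact hn.symm
  have h1 := seq_expo hK GG_nonneg hD S hS
    (by filter_upwards [eventually_ge_atTop 2] with n hn using GG_pos hn) (1 - θ)
    (by
      have h2 := (h.const_add 1).congr' e'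
      rwa [← sub_eq_add_neg] at h2)
  have h2 := (h1.congr' e).sub_const 1
  rw [show 1 - θ - 1 = -θ by ring] at h2
  refine h2.congr fun n => ?_
  ring

end Pool.Agent.Y943.SL
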