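import Pool.Agent.Y943.SL.PolW

/-!
# The mean area of self-avoiding polygons along sets of lengths with gaps of order `√n`
-/

set_option autoImplicit false

namespace Pool.Agent.Y943.SL

open Filter Topology Pool.Agent.W870.Pg
open Pool.Agent.H739K (MA)

theorem log_atTop : Tendsto (fun n : ℕ => Real.log (n : ℝ)) atTop atTop :=
  Real.tendsto_log_atTop.comp tendsto_natCast_atTop_atTop

theorem log_close {F : Filter ℕ} (hF : F ≤ atTop) {u v : ℕ → ℝ} {κ : ℝ}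
    (hu : ∀ᶠ n in F, 0 < u n) (hv : ∀ᶠ n in F, u n / 2 ≤ v n ∧ v n ≤ 2 * u n)
    (h : Tendsto (fun n : ℕ => Real.log (u n) / Real.log n) F (𝓝 κ)) :
    Tendsto (fun n : ℕ => Real.log (v n) / Real.log n) F (𝓝 κ) := by
  have hz : Tendsto (fun n : ℕ => (Real.log (v n) - Real.log (u n)) / Real.log n) F (𝓝 0) := by
    have t1 : Tendsto (fun m : ℕ => Real.log 2 / Real.log (m : ℝ)) F (𝓝 0) :=
      (log_atTop.const_div_atTop (Real.log 2)).mono_left hF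
    refine squeeze_zero_norm' ?_ t1
    filter_upwards [hu, hv, (eventually_ge_atTop 2).filter_mono hF] with n h1 h2 h3
    have hl : 0 < Real.log (n : ℝ) := Real.log_pos (by exact_mod_cast (by omega : 1 < n))
    rw [Real.norm_eq_abs, abs_div, abs_of_pos hl]
    refine div_le_div_of_nonneg_right ?_ hl.le
    have h4 : 0 < v n := by linarith [h2.1]
    have h5 := Real.log_le_log (by positivity) h2.1
    have h6 := Real.log_le_log h4 h2.2
    rw [Real.log_div h1.ne' (by norm_num)] at h5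
    rw [Real.log_mul (by norm_num) h1.ne'] at h6
    rw [abs_le]
    constructor <;> linarith
  have h1 := h.add hz
  rw [add_zero] at h1
  refine h1.congr fun n => ?_
  ring

theorem big_of_log {F : Filter ℕ} (hF : F ≤ atTop) {u : ℕ → ℝ} {κ : ℝ} (hκ : 1 < κ)
    (hu : ∀ᶠ n in F, 0 < u n)
    (h : Tendsto (fun n : ℕ => Real.log (u n) / Real.log n) F (𝓝 κ)) :
    ∀ᶠ n : ℕ in F, 4 * (n : ℝ) ≤ u n := by
  have h1 := h.eventually_const_lt (show (1 + κ) / 2 < κ by linarith)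
  have h2 : ∀ᶠ n : ℕ in atTop, Real.log 4 ≤ (κ - 1) / 2 * Real.log (n : ℝ) :=
    (log_atTop.const_mul_atTop (by linarith : 0 < (κ - 1) / 2)).eventually_ge_atTop _
  filter_upwards [h1, hu, h2.filter_mono hF, (eventually_ge_atTop 2).filter_mono hF]
    with n h3 h4 h5 h6
  have hn0 : (0 : ℝ) < n := by exact_mod_cast (show 0 < n by omega)
  have hl : 0 < Real.log (n : ℝ) := Real.log_pos (by exact_mod_cast (by omega : 1 < n))
  rw [lt_div_iff₀ hl] at h3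
  rw [← Real.log_le_log_iff (by positivity) h4, Real.log_mul (by norm_num) hn0.ne']
  linarith

/-- `(2 n - 1) / n ^ κ → 0` for `κ > 1` -/
theorem lin_small {κ : ℝ} (hκ : 1 < κ) :
    Tendsto (fun n : ℕ => (2 * (n : ℝ) - 1) / (n : ℝ) ^ κ) atTop (𝓝 0) := by
  have h1 : Tendsto (fun n : ℕ => 2 * (n : ℝ) ^ (-(κ - 1))) atTop (𝓝 0) := by
    have := ((tendsto_rpow_neg_atTop (show 0 < κ - 1 by linarith)).comp
      tendsto_natCast_atTop_atTop).const_mul (2 : ℝ)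
    rwa [mul_zero] at this
  refine squeeze_zero' ?_ ?_ h1
  · filter_upwards [eventually_ge_atTop 1] with n hn
    have hn1 : (1 : ℝ) ≤ n := by exact_mod_cast hn
    have : 0 ≤ 2 * (n : ℝ) - 1 := by linarith
    positivity
  · filter_upwards [eventually_ge_atTop 1] with n hn
    have hn0 : (0 : ℝ) < n := by exact_mod_cast (show 0 < n by omega)
    have hk : (0 : ℝ) < (n : ℝ) ^ κ := Real.rpow_pos_of_pos hn0 _
    rw [div_le_iff₀ hk, mul_assoc, ← Real.rpow_add hn0, show -(κ - 1) + κ = 1 by ring,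
      Real.rpow_one]
    linarith

theorem MA_nonneg (n : ℕ) : 0 ≤ MA n := by
  unfold MA Pool.Agent.H739K.me
  refine div_nonneg ?_ (Nat.cast_nonneg _)
  exact finsum_nonneg fun f => finsum_nonneg fun _ => Nat.cast_nonneg _

theorem area_form (S : Set ℕ)
    (hS : ∀ δ : ℝ, 0 < δ → ∀ᶠ n : ℕ in atTop, ∃ m ∈ S, n ≤ m ∧ (m : ℝ) ≤ n + δ * √n)
    (A E θ κ : ℝ) (hκ : 1 < κ) (hA : 0 < A) (hE : 0 < E)
    (h : Tendsto (fun n : ℕ => Fp n * (n : ℝ) ^ θ) (atTop ⊓ 𝓟 S) (𝓝 A))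
    (hX : Tendsto (fun n : ℕ => MA n / (n : ℝ) ^ κ) (atTop ⊓ 𝓟 S) (𝓝 E)) :
    Tendsto (fun n : ℕ => MA n / (n : ℝ) ^ κ) atTop (𝓝 E) := by
  have hz := lin_small hκ
  have h1 := hX.add (hz.mono_left (inf_le_left : atTop ⊓ 𝓟 S ≤ atTop))
  rw [add_zero] at h1
  have h2 := mx_area.form S hS A E θ κ hA hE h (h1.congr fun n => by rw [← add_div])
  have h3 := h2.sub hz
  rw [sub_zero] at h3
  refine h3.congr fun n => ?_
  rw [← sub_div, add_sub_cancel_right]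

theorem area_bdd (S : Set ℕ)
    (hS : ∃ K : ℝ, ∀ᶠ n : ℕ in atTop, ∃ m ∈ S, n ≤ m ∧ (m : ℝ) ≤ n + K * √n)
    (θ κ : ℝ) (hκ : 1 < κ)
    (h : ∃ a b : ℝ, 0 < a ∧ ∀ᶠ n : ℕ in atTop, n ∈ S →
      a ≤ Fp n * (n : ℝ) ^ θ ∧ Fp n * (n : ℝ) ^ θ ≤ b)
    (hX : ∃ a b : ℝ, 0 < a ∧ ∀ᶠ n : ℕ in atTop, n ∈ S →
      a ≤ MA n / (n : ℝ) ^ κ ∧ MA n / (n : ℝ) ^ κ ≤ b) :
    ∃ a b : ℝ, 0 < a ∧ ∀ᶠ n : ℕ in atTop, a ≤ MA n / (n : ℝ) ^ κ ∧ MA n / (n : ℝ) ^ κ ≤ b := by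
  obtain ⟨a, b, ha, hX⟩ := hX
  have hz := lin_small hκ
  obtain ⟨a', b', ha', h'⟩ := mx_area.bdd S hS θ κ h (by
    refine ⟨a, b + 1, ha, ?_⟩
    filter_upwards [hX, hz.eventually_lt_const (show (0 : ℝ) < 1 by norm_num),
      eventually_ge_atTop 1] with n h1 h2 h4 h3
    obtain ⟨h5, h6⟩ := h1 h3
    have hn1 : (1 : ℝ) ≤ n := by exact_mod_cast h4
    have h7 : 0 ≤ (2 * (n : ℝ) - 1) / (n : ℝ) ^ κ := by
      have : 0 ≤ 2 * (n : ℝ) - 1 := by linarith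
      positivity
    rw [add_div]
    constructor <;> linarith)
  refine ⟨a' / 2, b', by positivity, ?_⟩
  filter_upwards [h', hz.eventually_lt_const (show (0 : ℝ) < a' / 2 by positivity),
    eventually_ge_atTop 1] with n h1 h2 h4
  have hn1 : (1 : ℝ) ≤ n := by exact_mod_cast h4
  have h7 : 0 ≤ (2 * (n : ℝ) - 1) / (n : ℝ) ^ κ := by
    have : 0 ≤ 2 * (n : ℝ) - 1 := by linarith
    positivity
  rw [add_div] at h1
  constructor <;> linarith [h1.1, h1.2]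

theorem area_expo (S : Set ℕ)
    (hS : ∀ δ : ℝ, 0 < δ → ∀ᶠ n : ℕ in atTop, ∃ m ∈ S, n ≤ m ∧
      (m : ℝ) ≤ n + δ * √(n * Real.log n)) (θ κ : ℝ) (hκ : 1 < κ)
    (h : Tendsto (fun n : ℕ => Real.log (Fp n) / Real.log n) (atTop ⊓ 𝓟 S) (𝓝 (-θ)))
    (hX : Tendsto (fun n : ℕ => Real.log (MA n) / Real.log n) (atTop ⊓ 𝓟 S) (𝓝 κ)) :
    Tendsto (fun n : ℕ => Real.log (MA n) / Real.log n) atTop (𝓝 κ) := by
  have hp : ∀ᶠ n : ℕ in atTop ⊓ 𝓟 S, 0 < MA n := by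
    have h1 := hX.eventually_const_lt (show 0 < κ by linarith)
    filter_upwards [h1] with n hn
    refine lt_of_le_of_ne (MA_nonneg n) fun h0 => ?_
    rw [← h0, Real.log_zero, zero_div] at hn
    exact lt_irrefl _ hn
  have hb := big_of_log (inf_le_left : atTop ⊓ 𝓟 S ≤ atTop) hκ hp hX
  have h1 := log_close (inf_le_left : atTop ⊓ 𝓟 S ≤ atTop)
    (v := fun n : ℕ => MA n + (2 * (n : ℝ) - 1)) hp (by
      filter_upwards [hb, hp, (eventually_ge_atTop 1).filter_mono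
        (inf_le_left : atTop ⊓ 𝓟 S ≤ atTop)] with n h2 h3 h4
      have hn1 : (1 : ℝ) ≤ n := by exact_mod_cast h4
      constructor <;> linarith) hX
  have h2 := mx_area.expo S hS θ κ h h1
  have hp2 : ∀ᶠ n : ℕ in atTop, 0 < MA n + (2 * (n : ℝ) - 1) := by
    filter_upwards [eventually_ge_atTop 2] with n hn using mx_area.pos hn
  have hb2 := big_of_log le_rfl hκ hp2 h2
  refine log_close le_rfl hp2 ?_ h2
  filter_upwards [hb2, eventually_ge_atTop 1] with n h3 h4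
  have hn1 : (1 : ℝ) ≤ n := by exact_mod_cast h4
  constructor <;> linarith

end Pool.Agent.Y943.SL
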