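import Pool.Agent.Y943.SL.Pol
import Pool.Agent.H739K.All1
import Pool.Agent.H739K.F2
import Pool.Agent.H739K.F3
import Pool.Agent.H739K.AREA
import Pool.Agent.H739K.BOX

/-!
# Self-avoiding polygons: weighted counts along sets of lengths with gaps of order `√n`
-/

set_option autoImplicit false

namespace Pool.Agent.Y943.SL

open Filter Topology TH966.KS Pool.Agent.W870.Pg Pool.Agent.TH546.PC
open H981 (PP mu mu_pos one_le_mu)
open Pool.Agent.H739K (mm Nice KP rt)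

/-- normalised weighted number of rooted polygons -/
noncomputable def zz (φ : List Pool.Agent.H976R2.Dir → ℝ) (N : ℕ) : ℝ :=
  mm φ (2 * N - 1) / (4 * mu ^ (2 * N))

variable {φ : List Pool.Agent.H976R2.Dir → ℝ} {L : ℝ}

theorem card_KP {N : ℕ} (hN : 2 ≤ N) :
    ((KP (2 * N - 1)).card : ℝ) = 4 * mu ^ (2 * N) * GG N := by
  have h1 := (Pool.Agent.H739K.CONV_proof N hN).2.1
  rw [← h1]
  have h2 : (({f : ZMod (2 * N) → ℤ × ℤ | Pool.Agent.H924P.IsLoop (2 * N) f}.ncard : ℕ) : ℝ) =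
      4 * (N : ℝ) * PP N := by
    obtain ⟨M, rfl⟩ : ∃ M, N = M + 1 := ⟨N - 1, by omega⟩
    rw [← Pool.Agent.H924P.card_loops M, ← Nat.card_coe_set_eq]
    rfl
  rw [h2]
  unfold GG Fp
  have h3 : mu ^ (2 * N) ≠ 0 := (pow_pos mu_pos _).ne'
  field_simp

theorem zz_nonneg (h0 : ∀ w, 0 ≤ φ w) (N : ℕ) : 0 ≤ zz φ N := by
  unfold zz
  have h1 : 0 ≤ mm φ (2 * N - 1) := by
    unfold mm
    exact Finset.sum_nonneg fun w _ => h0 w
  have := mu_pos
  positivity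

theorem zz_eq {N : ℕ} (hN : 2 ≤ N) :
    zz φ N = GG N * (mm φ (2 * N - 1) / ((KP (2 * N - 1)).card : ℝ)) := by
  unfold zz
  rw [card_KP hN]
  have h1 := (GG_pos hN).ne'
  have h2 := (pow_pos mu_pos (2 * N)).ne'
  field_simp

theorem mm_pos (hφ : ∀ m, 3 ≤ m → Nice L m φ) {N : ℕ} (hN : 2 ≤ N) : 0 < mm φ (2 * N - 1) := by
  have h1 : ((KP (2 * N - 1)).card : ℝ) ≤ mm φ (2 * N - 1) :=
    Pool.Agent.H739K.RATIO.card_le_mm (hφ (2 * N - 1) (by omega)) le_rfl (by omega)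
  refine lt_of_lt_of_le ?_ h1
  rw [card_KP hN]
  have := mu_pos
  have := GG_pos hN
  positivity

theorem zz_pos (hφ : ∀ m, 3 ≤ m → Nice L m φ) {N : ℕ} (hN : 2 ≤ N) : 0 < zz φ N := by
  unfold zz
  have := mm_pos hφ hN
  have := mu_pos
  positivity

theorem zz_half (hL : 0 ≤ L) (hφ : ∀ m, 3 ≤ m → Nice L m φ) :
    ∃ N0 : ℕ, 2 ≤ N0 ∧ ∀ m : ℕ, N0 ≤ m → zz φ m ≤ 2 * zz φ (m + 1) := by
  obtain ⟨C, h⟩ := Pool.Agent.H739K.main' L hL
  have hlim : Tendsto (fun m : ℕ => Pool.Agent.H739K.rN m) atTop (𝓝 0) := by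
    have := Pool.Agent.H739K.pow_mul_rN (β := 0) (by norm_num)
    simpa using this
  have hl2 : Tendsto (fun m : ℕ => |C| * Pool.Agent.H739K.rN (2 * m - 1)) atTop (𝓝 0) := by
    have h1 : Tendsto (fun m : ℕ => 2 * m - 1) atTop atTop :=
      tendsto_atTop_mono (fun m => by simp only [id]; omega) tendsto_id
    have := (hlim.comp h1).const_mul |C|
    rwa [mul_zero] at this
  obtain ⟨n0, hn0⟩ := eventually_atTop.1 (hl2.eventually_lt_const (show (0 : ℝ) < 1 / 2 by norm_num))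
  refine ⟨max 2 n0, le_max_left _ _, fun m hm => ?_⟩
  have hm2 : 2 ≤ m := (le_max_left _ _).trans hm
  have h1 := hn0 m ((le_max_right _ _).trans hm)
  have h2 := h (2 * m - 1) φ (by omega) (by omega) (fun k hk _ _ => hφ k hk)
  have h3 : rt (2 * m - 1) = Pool.Agent.H739K.rN (2 * m - 1) := by
    rw [Pool.Agent.H739K.rN_eq]
    rfl
  rw [h3] at h2
  have h4 : 0 ≤ Pool.Agent.H739K.rN (2 * m - 1) := by
    rw [Pool.Agent.H739K.rN_eq]; exact Real.sqrt_nonneg _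
  have h5 : C * Pool.Agent.H739K.rN (2 * m - 1) ≤ |C| * Pool.Agent.H739K.rN (2 * m - 1) :=
    mul_le_mul_of_nonneg_right (le_abs_self C) h4
  have h6 := (abs_le.1 (h2.trans (h5.trans h1.le))).1
  have p1 := mm_pos hφ hm2
  have p2 := mm_pos hφ (show 2 ≤ m + 1 by omega)
  rw [show 2 * (m + 1) - 1 = 2 * m - 1 + 2 by omega] at p2
  have hmu := mu_pos
  have h7 : 1 / 2 ≤ mm φ (2 * m - 1 + 2) / (mu ^ 2 * mm φ (2 * m - 1)) := by linarith
  rw [le_div_iff₀ (by positivity)] at h7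
  unfold zz
  rw [show 2 * (m + 1) - 1 = 2 * m - 1 + 2 by omega, show 2 * (m + 1) = 2 * m + 2 by ring, pow_add,
    ← mul_div_assoc, div_le_div_iff₀ (by positivity) (by positivity)]
  have h8 : 0 < 4 * mu ^ (2 * m) := by positivity
  nlinarith [mul_le_mul_of_nonneg_left h7 h8.le]

theorem zz_kes (hL : 0 ≤ L) (hφ : ∀ m, 3 ≤ m → Nice L m φ) :
    ∃ D : ℝ, 0 ≤ D ∧ ∃ k0 : ℕ, Kes (zz φ) D (1 / 2) k0 := by
  obtain ⟨D, hD, h⟩ := Pool.Agent.H739K.RATIO_proof Pool.Agent.H739K.bnd L hL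
  obtain ⟨N0, hN0, hr⟩ := zz_half hL hφ
  refine ⟨4 * D, by linarith, N0, fun k hk _ => ?_⟩
  have h1 := h (2 * k - 1) φ (by omega) (by omega) (hφ _ (by omega))
  have h2 := hr k hk
  have h3 := hr (k + 1) (by omega)
  have p0 : 0 < zz φ k := zz_pos hφ (by omega)
  have p2 : 0 < zz φ (k + 2) := zz_pos hφ (by omega)
  have hk0 : (0 : ℝ) < k := by exact_mod_cast (show 0 < k by omega)
  have hmu := mu_pos
  have hmu1 := one_le_mu
  have e0 : mm φ (2 * k - 1) = 4 * mu ^ (2 * k) * zz φ k := by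
    unfold zz; field_simp
  have e1 : mm φ (2 * k - 1 + 2) = 4 * mu ^ (2 * (k + 1)) * zz φ (k + 1) := by
    unfold zz
    rw [show 2 * (k + 1) - 1 = 2 * k - 1 + 2 by omega]; field_simp
  have e2 : mm φ (2 * k - 1 + 4) = 4 * mu ^ (2 * (k + 2)) * zz φ (k + 2) := by
    unfold zz
    rw [show 2 * (k + 2) - 1 = 2 * k - 1 + 4 by omega]; field_simp
  rw [e0, e1, e2] at h1
  set Q := mu ^ (2 * k) with hQ
  have hQ0 : 0 < Q := pow_pos hmu _
  have e3 : mu ^ (2 * (k + 1)) = Q * mu ^ 2 := by rw [hQ, ← pow_add]; congr 1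
  have e4 : mu ^ (2 * (k + 2)) = Q * mu ^ 4 := by rw [hQ, ← pow_add]; congr 1
  rw [e3, e4] at h1
  have hmu4 : 1 ≤ mu ^ 4 := one_le_pow₀ hmu1
  have h4 : D / ((2 * k - 1 : ℕ) : ℝ) ≤ D / k := by
    have h3 : (k : ℝ) ≤ ((2 * k - 1 : ℕ) : ℝ) := by
      have : k ≤ 2 * k - 1 := by omega
      exact_mod_cast this
    exact div_le_div_of_nonneg_left hD hk0 h3
  have hc : 0 ≤ D / (k : ℝ) := by positivity
  have h5 : 16 * Q ^ 2 * mu ^ 4 * zz φ (k + 1) ^ 2 ≤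
      16 * Q ^ 2 * mu ^ 4 * (zz φ k * zz φ (k + 2) + D / k * zz φ k ^ 2) := by
    calc 16 * Q ^ 2 * mu ^ 4 * zz φ (k + 1) ^ 2 = (4 * (Q * mu ^ 2) * zz φ (k + 1)) ^ 2 := by ring
      _ ≤ 4 * Q * zz φ k * (4 * (Q * mu ^ 4) * zz φ (k + 2)) +
          D / ((2 * k - 1 : ℕ) : ℝ) * (4 * Q * zz φ k) ^ 2 := h1
      _ ≤ 4 * Q * zz φ k * (4 * (Q * mu ^ 4) * zz φ (k + 2)) +
          D / k * (4 * Q * zz φ k) ^ 2 := by gcongr
      _ = 16 * Q ^ 2 * mu ^ 4 * (zz φ k * zz φ (k + 2)) + 16 * Q ^ 2 * 1 * (D / k * zz φ k ^ 2) := by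
          ring
      _ ≤ 16 * Q ^ 2 * mu ^ 4 * (zz φ k * zz φ (k + 2)) +
          16 * Q ^ 2 * mu ^ 4 * (D / k * zz φ k ^ 2) := by gcongr
      _ = _ := by ring
  have h6 : zz φ (k + 1) ^ 2 ≤ zz φ k * zz φ (k + 2) + D / k * zz φ k ^ 2 :=
    le_of_mul_le_mul_left h5 (by positivity)
  have h7 : zz φ k ^ 2 ≤ 4 * (zz φ k * zz φ (k + 2)) := by
    rw [show k + 1 + 1 = k + 2 by ring] at h3
    nlinarith
  have h8 : D / k * zz φ k ^ 2 ≤ D / k * (4 * (zz φ k * zz φ (k + 2))) :=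
    mul_le_mul_of_nonneg_left h7 hc
  calc zz φ (k + 1) ^ 2 ≤ zz φ k * zz φ (k + 2) + D / k * zz φ k ^ 2 := h6
    _ ≤ zz φ k * zz φ (k + 2) + D / k * (4 * (zz φ k * zz φ (k + 2))) := by linarith
    _ = zz φ k * zz φ (k + 2) * (1 + 4 * D / k) := by ring

/-- what is needed about the means `X` of the weight `φ` -/
structure MX (φ : List Pool.Agent.H976R2.Dir → ℝ) (X : ℕ → ℝ) (L : ℝ) : Prop where
  hL : 0 ≤ L
  nice : ∀ m, 3 ≤ m → Nice L m φ
  nn : ∀ w, 0 ≤ φ w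
  eq : ∀ N : ℕ, 2 ≤ N → mm φ (2 * N - 1) / ((KP (2 * N - 1)).card : ℝ) = X N

variable {X : ℕ → ℝ}

theorem MX.zz_eq' (M : MX φ X L) {N : ℕ} (hN : 2 ≤ N) : zz φ N = GG N * X N := by
  rw [zz_eq hN, M.eq N hN]

theorem MX.pos (M : MX φ X L) {N : ℕ} (hN : 2 ≤ N) : 0 < X N := by
  have h1 := zz_pos M.nice hN
  rw [M.zz_eq' hN] at h1
  exact (pos_iff_pos_of_mul_pos h1).1 (GG_pos hN)

theorem MX.form (M : MX φ X L) (S : Set ℕ)
    (hS : ∀ δ : ℝ, 0 < δ → ∀ᶠ n : ℕ in atTop, ∃ m ∈ S, n ≤ m ∧ (m : ℝ) ≤ n + δ * √n)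
    (A E θ κ : ℝ) (hA : 0 < A) (hE : 0 < E)
    (h : Tendsto (fun n : ℕ => Fp n * (n : ℝ) ^ θ) (atTop ⊓ 𝓟 S) (𝓝 A))
    (hX : Tendsto (fun n : ℕ => X n / (n : ℝ) ^ κ) (atTop ⊓ 𝓟 S) (𝓝 E)) :
    Tendsto (fun n : ℕ => X n / (n : ℝ) ^ κ) atTop (𝓝 E) := by
  obtain ⟨D, hD, k0, hK⟩ := zz_kes M.hL M.nice
  have e : ∀ᶠ n : ℕ in atTop, zz φ n / (n : ℝ) ^ (1 - θ + κ) =
      Fp n * (n : ℝ) ^ θ * (X n / (n : ℝ) ^ κ) := by
    filter_upwards [eventually_ge_atTop 2] with n hn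
    have hn0 : (0 : ℝ) < n := by exact_mod_cast (show 0 < n by omega)
    rw [M.zz_eq' hn, Real.rpow_add hn0, ← GG_pow θ (show 1 ≤ n by omega)]
    have h1 : (0 : ℝ) < (n : ℝ) ^ (1 - θ) := Real.rpow_pos_of_pos hn0 _
    have h2 : (0 : ℝ) < (n : ℝ) ^ κ := Real.rpow_pos_of_pos hn0 _
    field_simp
  have e' : ∀ᶠ n : ℕ in atTop ⊓ 𝓟 S, Fp n * (n : ℝ) ^ θ * (X n / (n : ℝ) ^ κ) =
      zz φ n / (n : ℝ) ^ (1 - θ + κ) := by
    have e1 : ∀ᶠ n : ℕ in atTop ⊓ 𝓟 S, zz φ n / (n : ℝ) ^ (1 - θ + κ) =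
      Fp n * (n : ℝ) ^ θ * (X n / (n : ℝ) ^ κ) := e.filter_mono inf_le_left
    filter_upwards [e1] with n hn
    exact hn.symm
  have h1 := seq_form hK (zz_nonneg M.nn) hD S hS (A * E) (1 - θ + κ) (mul_pos hA hE)
    ((h.mul hX).congr' e')
  have h2 := pol_form S hS A θ hA h
  have h3 := (h1.congr' e).div h2 hA.ne'
  rw [mul_div_cancel_left₀ _ hA.ne'] at h3
  refine h3.congr' ?_
  filter_upwards [eventually_ge_atTop 2] with n hn
  have hn0 : (0 : ℝ) < n := by exact_mod_cast (show 0 < n by omega)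
  have h5 : 0 < Fp n * (n : ℝ) ^ θ := mul_pos (Fp_pos hn) (Real.rpow_pos_of_pos hn0 _)
  show Fp n * (n : ℝ) ^ θ * (X n / (n : ℝ) ^ κ) / (Fp n * (n : ℝ) ^ θ) = X n / (n : ℝ) ^ κ
  rw [mul_div_cancel_left₀ _ h5.ne']

theorem MX.bdd (M : MX φ X L) (S : Set ℕ)
    (hS : ∃ K : ℝ, ∀ᶠ n : ℕ in atTop, ∃ m ∈ S, n ≤ m ∧ (m : ℝ) ≤ n + K * √n)
    (θ κ : ℝ)
    (h : ∃ a b : ℝ, 0 < a ∧ ∀ᶠ n : ℕ in atTop, n ∈ S →
      a ≤ Fp n * (n : ℝ) ^ θ ∧ Fp n * (n : ℝ) ^ θ ≤ b)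
    (hX : ∃ a b : ℝ, 0 < a ∧ ∀ᶠ n : ℕ in atTop, n ∈ S →
      a ≤ X n / (n : ℝ) ^ κ ∧ X n / (n : ℝ) ^ κ ≤ b) :
    ∃ a b : ℝ, 0 < a ∧ ∀ᶠ n : ℕ in atTop, a ≤ X n / (n : ℝ) ^ κ ∧ X n / (n : ℝ) ^ κ ≤ b := by
  obtain ⟨D, hD, k0, hK⟩ := zz_kes M.hL M.nice
  obtain ⟨a1, b1, ha1, h1⟩ := pol_bdd S hS θ h
  obtain ⟨K, hS⟩ := hS
  obtain ⟨a, b, ha, h⟩ := h
  obtain ⟨a', b', ha', hX⟩ := hX
  have eid : ∀ n : ℕ, 2 ≤ n → Real.log (zz φ n) - ((1 - θ + κ) * Real.log n + 0) =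
      Real.log (Fp n * (n : ℝ) ^ θ) + Real.log (X n / (n : ℝ) ^ κ) := by
    intro n hn
    have hn0 : (0 : ℝ) < n := by exact_mod_cast (show 0 < n by omega)
    have h1 := M.pos hn
    rw [M.zz_eq' hn, Real.log_mul (GG_pos hn).ne' h1.ne', Real.log_div h1.ne'
      (Real.rpow_pos_of_pos hn0 _).ne', Real.log_rpow hn0]
    have := pol_log θ 0 hn
    linarith
  set τ : ℝ := |Real.log a| + |Real.log b| + |Real.log a'| + |Real.log b'| + 1 with hτ
  have hτ0 : 0 < τ := by positivity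
  have hst := seq_bdd hK (zz_nonneg M.nn) hD S (|K| + 1) (by positivity)
    (by
      filter_upwards [hS] with n hn
      obtain ⟨m, h1, h2, h3⟩ := hn
      refine ⟨m, h1, h2, h3.trans ?_⟩
      have : K ≤ |K| + 1 := by linarith [le_abs_self K]
      have h4 : K * √(n : ℝ) ≤ (|K| + 1) * √(n : ℝ) :=
        mul_le_mul_of_nonneg_right this (Real.sqrt_nonneg _)
      linarith)
    (1 - θ + κ) 0 τ hτ0
    (by
      filter_upwards [h, hX, eventually_ge_atTop 2] with n h1 h1' h2 h3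
      refine ⟨zz_pos M.nice h2, ?_⟩
      rw [eid n h2]
      obtain ⟨h4, h5⟩ := h1 h3
      obtain ⟨h4', h5'⟩ := h1' h3
      have h6 := Real.log_le_log ha h4
      have h7 := Real.log_le_log (ha.trans_le h4) h5
      have h6' := Real.log_le_log ha' h4'
      have h7' := Real.log_le_log (ha'.trans_le h4') h5'
      rw [abs_le]
      have e1 := neg_abs_le (Real.log a)
      have e2 := le_abs_self (Real.log b)
      have e3 := abs_nonneg (Real.log a)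
      have e4 := abs_nonneg (Real.log b)
      have e1' := neg_abs_le (Real.log a')
      have e2' := le_abs_self (Real.log b')
      have e3' := abs_nonneg (Real.log a')
      have e4' := abs_nonneg (Real.log b')
      constructor <;> linarith)
  set B := 9 * τ + 384 * D * (|K| + 1) ^ 2 with hB
  refine ⟨Real.exp (-(B + |Real.log b1|)), Real.exp (B + |Real.log a1|), Real.exp_pos _, ?_⟩
  filter_upwards [hst, h1, eventually_ge_atTop 2] with n h1 h1' h2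
  have h3 := h1.2
  rw [eid n h2, abs_le] at h3
  have hn0 : (0 : ℝ) < n := by exact_mod_cast (show 0 < n by omega)
  have h5 : 0 < X n / (n : ℝ) ^ κ := div_pos (M.pos h2) (Real.rpow_pos_of_pos hn0 _)
  have h6 := Real.log_le_log ha1 h1'.1
  have h7 := Real.log_le_log (ha1.trans_le h1'.1) h1'.2
  have e1 := neg_abs_le (Real.log a1)
  have e2 := le_abs_self (Real.log b1)
  have e3 := abs_nonneg (Real.log a1)
  have e4 := abs_nonneg (Real.log b1)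
  constructor
  · rw [← Real.le_log_iff_exp_le h5]
    linarith
  · rw [← Real.log_le_iff_le_exp h5]
    linarith

theorem MX.expo (M : MX φ X L) (S : Set ℕ)
    (hS : ∀ δ : ℝ, 0 < δ → ∀ᶠ n : ℕ in atTop, ∃ m ∈ S, n ≤ m ∧
      (m : ℝ) ≤ n + δ * √(n * Real.log n)) (θ κ : ℝ)
    (h : Tendsto (fun n : ℕ => Real.log (Fp n) / Real.log n) (atTop ⊓ 𝓟 S) (𝓝 (-θ)))
    (hX : Tendsto (fun n : ℕ => Real.log (X n) / Real.log n) (atTop ⊓ 𝓟 S) (𝓝 κ)) :
    Tendsto (fun n : ℕ => Real.log (X n) / Real.log n) atTop (𝓝 κ) := by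
  obtain ⟨D, hD, k0, hK⟩ := zz_kes M.hL M.nice
  have e : ∀ᶠ n : ℕ in atTop, Real.log (zz φ n) / Real.log n =
      1 + Real.log (Fp n) / Real.log n + Real.log (X n) / Real.log n := by
    filter_upwards [eventually_ge_atTop 2] with n hn
    have hn1 : (1 : ℝ) < n := by exact_mod_cast (show 1 < n by omega)
    have hl : 0 < Real.log (n : ℝ) := Real.log_pos hn1
    rw [M.zz_eq' hn, Real.log_mul (GG_pos hn).ne' (M.pos hn).ne', add_div]
    unfold GG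
    rw [Real.log_mul (by positivity) (Fp_pos hn).ne', add_div, div_self hl.ne']
  have e' : ∀ᶠ n : ℕ in atTop ⊓ 𝓟 S, 1 + Real.log (Fp n) / Real.log n +
      Real.log (X n) / Real.log n = Real.log (zz φ n) / Real.log n := by
    have e1 : ∀ᶠ n : ℕ in atTop ⊓ 𝓟 S, Real.log (zz φ n) / Real.log n =
        1 + Real.log (Fp n) / Real.log n + Real.log (X n) / Real.log n :=
      e.filter_mono inf_le_left
    filter_upwards [e1] with n hn
    exact hn.symm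
  have h1 := seq_expo hK (zz_nonneg M.nn) hD S hS
    (by filter_upwards [eventually_ge_atTop 2] with n hn using zz_pos M.nice hn) (1 + -θ + κ)
    (((h.const_add 1).add hX).congr' e')
  have h2 := pol_expo S hS θ h
  have h3 := (h1.congr' e).sub (h2.const_add 1)
  rw [show 1 + -θ + κ - (1 + -θ) = κ by ring] at h3
  refine h3.congr fun n => ?_
  ring

/-- the width (height plus width) -/
theorem mx_width : MX (fun w => (Pool.Agent.H739K.bx w : ℝ))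
    (fun N => 2 * Pool.Agent.H739K.MW N) 6 where
  hL := by norm_num
  nice := Pool.Agent.H739K.F3x.nice Pool.Agent.H739K.BOX_proof
  nn := fun w => Nat.cast_nonneg _
  eq := fun N hN => Pool.Agent.H739K.F3x.mean_eq Pool.Agent.H739K.CONV_proof
    Pool.Agent.H739K.SWAP_proof hN

/-- the area (plus the length) -/
theorem mx_area : MX Pool.Agent.H739K.F2aux.ph
    (fun N => Pool.Agent.H739K.MA N + (2 * N - 1)) 6 where
  hL := by norm_num
  nice := Pool.Agent.H739K.F2aux.nice Pool.Agent.H739K.CONV_proof Pool.Agent.H739K.AREA_proof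
  nn := fun w => by
    unfold Pool.Agent.H739K.F2aux.ph
    positivity
  eq := fun N hN => Pool.Agent.H739K.F2aux.mean_eq Pool.Agent.H739K.CONV_proof
    Pool.Agent.H739K.f2a N hN

end Pool.Agent.Y943.SL
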