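import Pool.Agent.Y943.SL.Abs

/-!
# One sequence with Kesten's inequality: power laws along sets with gaps of order `√n`
-/

set_option autoImplicit false

namespace Pool.Agent.Y943.SL

open Filter Topology TH966.KS

variable {y : ℕ → ℝ} {D : ℝ} {k0 : ℕ}

theorem log_diff1 (β b : ℝ) (m n : ℕ) (hm : 1 ≤ m) (hmn : m ≤ n) :
    |(β * Real.log (n : ℝ) + b) - (β * Real.log (m : ℝ) + b)| ≤ |β| * ((n : ℝ) - m) / m := by
  have hm0 : (0 : ℝ) < m := by exact_mod_cast (show 0 < m by omega)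
  have hn0 : (0 : ℝ) < n := by exact_mod_cast (show 0 < n by omega)
  have hmn' : (m : ℝ) ≤ n := by exact_mod_cast hmn
  have h1 : (β * Real.log (n : ℝ) + b) - (β * Real.log (m : ℝ) + b) =
      β * Real.log ((n : ℝ) / m) := by
    rw [Real.log_div hn0.ne' hm0.ne']
    ring
  rw [h1, abs_mul, mul_div_assoc]
  refine mul_le_mul_of_nonneg_left ?_ (abs_nonneg _)
  have h2 : 0 ≤ Real.log ((n : ℝ) / m) := Real.log_nonneg ((one_le_div hm0).2 hmn')
  rw [abs_of_nonneg h2]
  refine (Real.log_le_sub_one_of_pos (div_pos hn0 hm0)).trans ?_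
  rw [div_sub_one hm0.ne']

theorem psi_zero1 (β b : ℝ) :
    Tendsto (fun n : ℕ => (β * Real.log (n : ℝ) + b) / n) atTop (𝓝 0) := by
  have h := (log_over.const_mul β).add (tendsto_const_div_atTop_nhds_zero_nat b)
  rw [mul_zero, add_zero] at h
  refine h.congr fun n => ?_
  rw [add_div, mul_div_assoc]

/-- positivity along `S` from the limit -/
theorem quot_log {A β : ℝ} (hA : 0 < A) {n : ℕ} (hn : 1 ≤ n) (hq : 0 < y n / (n : ℝ) ^ β) :
    0 < y n ∧ Real.log (y n / (n : ℝ) ^ β / A) = Real.log (y n) - (β * Real.log n + Real.log A) := by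
  have hn0 : (0 : ℝ) < n := by exact_mod_cast hn
  have h1 : (0 : ℝ) < (n : ℝ) ^ β := Real.rpow_pos_of_pos hn0 _
  have hy : 0 < y n := by
    have := mul_pos hq h1
    rwa [div_mul_cancel₀ _ h1.ne'] at this
  refine ⟨hy, ?_⟩
  rw [Real.log_div hq.ne' hA.ne', Real.log_div hy.ne' h1.ne', Real.log_rpow hn0]
  ring

/-- **bounded form**: two-sided bounds along a set of indices with gaps `O(√n)` -/
theorem seq_bdd (hK : Kes y D (1 / 2) k0) (hy : ∀ k, 0 ≤ y k) (hD : 0 ≤ D) (S : Set ℕ) (δ : ℝ)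
    (hδ : 0 < δ)
    (hS : ∀ᶠ n : ℕ in atTop, ∃ m ∈ S, n ≤ m ∧ (m : ℝ) ≤ n + δ * √n)
    (β b τ : ℝ) (hτ : 0 < τ)
    (h : ∀ᶠ n : ℕ in atTop, n ∈ S → 0 < y n ∧ |Real.log (y n) - (β * Real.log n + b)| ≤ τ) :
    ∀ᶠ n : ℕ in atTop, 0 < y n ∧
      |Real.log (y n) - (β * Real.log n + b)| ≤ 9 * τ + 384 * D * δ ^ 2 := by
  have hst := step (E := fun _ => 1) (B := |β|) (τ := τ) (δ := δ)
      (ψ := fun k => β * Real.log (k : ℝ) + b) (S := S) hK hy hD (by norm_num) (by norm_num)
      (fun _ _ => le_rfl) monotone_const (fun _ _ => by norm_num) one_div_tend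
      hτ hδ (abs_nonneg β)
      (fun m n hm hmn => log_diff1 β _ m n hm hmn) (psi_zero1 β _)
      (by
        filter_upwards [hS] with k hk
        simpa only [mul_one] using hk)
      (by
        filter_upwards [h] with k hk hkS
        simpa only [mul_one] using hk hkS)
  filter_upwards [hst] with k hk
  simpa only [mul_one] using hk

/-- **strong form** -/
theorem seq_form (hK : Kes y D (1 / 2) k0) (hy : ∀ k, 0 ≤ y k) (hD : 0 ≤ D) (S : Set ℕ)
    (hS : ∀ δ : ℝ, 0 < δ → ∀ᶠ n : ℕ in atTop, ∃ m ∈ S, n ≤ m ∧ (m : ℝ) ≤ n + δ * √n)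
    (A β : ℝ) (hA : 0 < A)
    (h : Tendsto (fun n : ℕ => y n / (n : ℝ) ^ β) (atTop ⊓ 𝓟 S) (𝓝 A)) :
    Tendsto (fun n : ℕ => y n / (n : ℝ) ^ β) atTop (𝓝 A) := by
  have hposS : ∀ᶠ n : ℕ in atTop, n ∈ S → 0 < y n / (n : ℝ) ^ β := by
    have h1 := h.eventually_const_lt hA
    rwa [eventually_inf_principal] at h1
  have hlogS : ∀ τ : ℝ, 0 < τ → ∀ᶠ n : ℕ in atTop, n ∈ S →
      0 < y n ∧ |Real.log (y n) - (β * Real.log n + Real.log A)| ≤ τ := by
    intro τ hτ
    have h2 : Tendsto (fun n : ℕ => Real.log (y n / (n : ℝ) ^ β / A)) (atTop ⊓ 𝓟 S)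
        (𝓝 (Real.log (A / A))) := by
      refine Tendsto.log (h.div_const A) ?_
      rw [div_self hA.ne']; norm_num
    rw [div_self hA.ne', Real.log_one] at h2
    have h3 := h2.abs
    rw [abs_zero] at h3
    have h4 := h3.eventually_lt_const hτ
    rw [eventually_inf_principal] at h4
    filter_upwards [h4, hposS, eventually_ge_atTop 1] with n h5 h6 h7 h8
    obtain ⟨h9, h10⟩ := quot_log hA h7 (h6 h8)
    refine ⟨h9, ?_⟩
    rw [← h10]
    exact (h5 h8).le
  have hall : ∀ ε : ℝ, 0 < ε → ∀ᶠ k : ℕ in atTop,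
      0 < y k ∧ |Real.log (y k) - (β * Real.log k + Real.log A)| ≤ ε := by
    intro ε hε
    have hδ : 0 < √(ε / (2 * (384 * D + 1))) := Real.sqrt_pos.2 (by positivity)
    set δ := √(ε / (2 * (384 * D + 1))) with hδd
    have hst := seq_bdd hK hy hD S δ hδ (hS δ hδ) β (Real.log A) (ε / 18) (by positivity)
      (hlogS _ (by positivity))
    filter_upwards [hst] with k hk
    refine ⟨hk.1, hk.2.trans ?_⟩
    rw [hδd, Real.sq_sqrt (by positivity)]
    have h7 : 384 * D * (ε / (2 * (384 * D + 1))) ≤ ε / 2 := by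
      rw [mul_div_assoc', div_le_div_iff₀ (by positivity) (by norm_num)]
      nlinarith
    linarith
  have h8 : Tendsto (fun n : ℕ => Real.log (y n) - (β * Real.log n + Real.log A)) atTop
      (𝓝 0) := by
    rw [Metric.tendsto_atTop']
    intro ε hε
    obtain ⟨N, hN⟩ := eventually_atTop.1 (hall (ε / 2) (by positivity))
    refine ⟨N, fun n hn => ?_⟩
    rw [dist_zero_right, Real.norm_eq_abs]
    have := (hN n hn.le).2
    linarith
  have h9 : Tendsto (fun n : ℕ => Real.exp (Real.log (y n) -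
      (β * Real.log n + Real.log A)) * A) atTop (𝓝 (Real.exp 0 * A)) :=
    ((Real.continuous_exp.tendsto 0).comp h8).mul_const A
  rw [Real.exp_zero, one_mul] at h9
  refine h9.congr' ?_
  filter_upwards [eventually_ge_atTop 1, hall 1 one_pos] with n hn hyn
  have hn0 : (0 : ℝ) < n := by exact_mod_cast hn
  have h1 : (0 : ℝ) < (n : ℝ) ^ β := Real.rpow_pos_of_pos hn0 _
  have hq : 0 < y n / (n : ℝ) ^ β := div_pos hyn.1 h1
  rw [← (quot_log hA hn hq).2, Real.exp_log (div_pos hq hA), div_mul_cancel₀ _ hA.ne']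

theorem log_mono1 : Monotone (fun n : ℕ => 1 + Real.log (n : ℝ)) := by
  intro m n hmn
  rcases Nat.eq_zero_or_pos m with h0 | h0
  · subst h0
    simp only [Nat.cast_zero, Real.log_zero, add_zero]
    linarith [Real.log_natCast_nonneg n]
  · have h1 : (0 : ℝ) < m := by exact_mod_cast h0
    have h2 : (m : ℝ) ≤ n := by exact_mod_cast hmn
    have := Real.log_le_log h1 h2
    simp only
    linarith

/-- **logarithmic form** -/
theorem seq_expo (hK : Kes y D (1 / 2) k0) (hy : ∀ k, 0 ≤ y k) (hD : 0 ≤ D) (S : Set ℕ)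
    (hS : ∀ δ : ℝ, 0 < δ → ∀ᶠ n : ℕ in atTop, ∃ m ∈ S, n ≤ m ∧
      (m : ℝ) ≤ n + δ * √(n * Real.log n))
    (hpos : ∀ᶠ n : ℕ in atTop, 0 < y n) (β : ℝ)
    (h : Tendsto (fun n : ℕ => Real.log (y n) / Real.log n) (atTop ⊓ 𝓟 S) (𝓝 β)) :
    Tendsto (fun n : ℕ => Real.log (y n) / Real.log n) atTop (𝓝 β) := by
  have hlog0 : ∀ n : ℕ, 0 ≤ Real.log (n : ℝ) := fun n => Real.log_natCast_nonneg n
  have hlog2 : Real.log 2 ≤ 1 := by
    have := Real.log_two_lt_d9
    linarith
  have hE1 : ∀ n : ℕ, 1 ≤ n → (1 : ℝ) ≤ 1 + Real.log n := fun n _ => by linarith [hlog0 n]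
  have hE2 : ∀ n : ℕ, 1 ≤ n → 1 + Real.log ((2 * n : ℕ) : ℝ) ≤ 2 * (1 + Real.log n) := by
    intro n hn
    have h1 : (0 : ℝ) < n := by exact_mod_cast (show 0 < n by omega)
    push_cast
    rw [Real.log_mul (by norm_num) h1.ne']
    linarith [hlog0 n]
  have hEn : Tendsto (fun n : ℕ => (1 + Real.log (n : ℝ)) / n) atTop (𝓝 0) := by
    have h1 := one_div_tend.add log_over
    rw [add_zero] at h1
    refine h1.congr fun n => ?_
    rw [add_div]
  have key : ∀ ε : ℝ, 0 < ε → ∀ᶠ n : ℕ in atTop,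
      |Real.log (y n) - β * Real.log n| ≤ ε * (1 + Real.log n) := by
    intro ε hε
    have hδ : 0 < √(ε / (2 * (384 * D + 1))) := Real.sqrt_pos.2 (by positivity)
    set δ := √(ε / (2 * (384 * D + 1))) with hδd
    set τ := ε / 18 with hτ
    have hτ0 : 0 < τ := by positivity
    have hlogS : ∀ᶠ n : ℕ in atTop, n ∈ S →
        |Real.log (y n) - β * Real.log n| ≤ τ * Real.log n := by
      have h3 := (Metric.tendsto_nhds.1 h) τ hτ0
      rw [eventually_inf_principal] at h3
      filter_upwards [h3, eventually_gt_atTop 1] with n h4 h5 h6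
      have h51 : (1 : ℝ) < n := by exact_mod_cast h5
      have h52 : 0 < Real.log (n : ℝ) := Real.log_pos h51
      have h7 := h4 h6
      rw [Real.dist_eq] at h7
      have h8 : Real.log (y n) - β * Real.log n =
          (Real.log (y n) / Real.log n - β) * Real.log n := by
        field_simp
      rw [h8, abs_mul, abs_of_pos h52]
      exact mul_le_mul_of_nonneg_right h7.le h52.le
    have hst := step (E := fun n => 1 + Real.log (n : ℝ)) (B := |β|) (τ := τ) (δ := δ)
      (ψ := fun k => β * Real.log (k : ℝ) + 0)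
      (S := S) hK hy hD (by norm_num)
      (by norm_num) hE1 log_mono1 hE2 hEn hτ0 hδ (abs_nonneg β)
      (fun m n hm hmn => log_diff1 β 0 m n hm hmn) (psi_zero1 β 0)
      (by
        filter_upwards [hS δ hδ] with k hk
        obtain ⟨m, hmS, hm3, hm4⟩ := hk
        refine ⟨m, hmS, hm3, hm4.trans ?_⟩
        have h5 : √((k : ℝ) * Real.log k) ≤ √(k * (1 + Real.log k)) := by
          refine Real.sqrt_le_sqrt ?_
          have : (0 : ℝ) ≤ k := Nat.cast_nonneg k
          nlinarith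
        have h6 := mul_le_mul_of_nonneg_left h5 hδ.le
        linarith)
      (by
        filter_upwards [hlogS, hpos] with k hk hkp hkS
        refine ⟨hkp, ?_⟩
        rw [add_zero]
        refine (hk hkS).trans (mul_le_mul_of_nonneg_left ?_ hτ0.le)
        linarith)
    filter_upwards [hst] with k hk
    have h1 := hk.2
    rw [add_zero] at h1
    refine h1.trans (mul_le_mul_of_nonneg_right ?_ (by linarith [hlog0 k]))
    rw [hδd, Real.sq_sqrt (by positivity)]
    have h7 : 384 * D * (ε / (2 * (384 * D + 1))) ≤ ε / 2 := by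
      rw [mul_div_assoc', div_le_div_iff₀ (by positivity) (by norm_num)]
      nlinarith
    linarith
  rw [Metric.tendsto_atTop']
  intro ε hε
  obtain ⟨N, hN⟩ := eventually_atTop.1 (key (ε / 4) (by positivity))
  refine ⟨N + 3, fun n hn => ?_⟩
  have hn3 : (3 : ℝ) ≤ n := by exact_mod_cast (show 3 ≤ n by omega)
  have hln : 1 ≤ Real.log (n : ℝ) := by
    rw [Real.le_log_iff_exp_le (by linarith)]
    have := Real.exp_one_lt_d9
    linarith
  have hln0 : 0 < Real.log (n : ℝ) := by linarith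
  rw [Real.dist_eq]
  have h6 : Real.log (y n) / Real.log n - β =
      (Real.log (y n) - β * Real.log n) / Real.log n := by
    field_simp
  rw [h6, abs_div, abs_of_pos hln0, div_lt_iff₀ hln0]
  refine (hN n (by omega)).trans_lt ?_
  nlinarith

end Pool.Agent.Y943.SL
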