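import Pool.Agent.Y943.SL.Mk
import Pool.Agent.W387.Q.Gap3
import Pool.Agent.H976R2.KMom

/-!
# Self-avoiding walks on `ℤ²` satisfy the assumptions
-/

set_option autoImplicit false

namespace Pool.Agent.Y943.SL

open Filter Topology

theorem sqrt_log_tend : Tendsto (fun n : ℕ => Real.sqrt (Real.log n ^ 3 / n)) atTop (𝓝 0) := by
  have h1 : Tendsto (fun x : ℝ => Real.log x ^ 3 / x) atTop (𝓝 0) := by
    have := (isLittleO_log_rpow_rpow_atTop (s := 1) 3 one_pos).tendsto_div_nhds_zero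
    refine this.congr fun x => ?_
    norm_num
  have h2 := (Real.continuous_sqrt.tendsto 0).comp (h1.comp tendsto_natCast_atTop_atTop)
  rw [Real.sqrt_zero] at h2
  exact h2

theorem card_SW (n : ℕ) : ((Pool.Agent.H976R2.SW n).card : ℝ) = H981.cr' n :=
  Pool.Agent.H739K.SWR.card_eq_cr' n

theorem mom_one (n : ℕ) : Pool.Agent.H976R2.mom (fun _ => 1) n = H981.cr' n := by
  rw [← card_SW]
  unfold Pool.Agent.H976R2.mom
  simp

theorem ratio_two : ∀ᶠ n : ℕ in atTop, H981.mu ^ 2 / 2 * H981.cr' n ≤ H981.cr' (n + 2) := by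
  have hmu := H981.mu_pos
  obtain ⟨K, hK⟩ := Pool.Agent.W387.Q.SWF.count
  have h1 := sqrt_log_tend.const_mul K
  rw [mul_zero] at h1
  filter_upwards [h1.eventually_lt_const (show 0 < H981.mu ^ 2 / 2 by positivity),
    eventually_ge_atTop 2] with n h2 h3
  have h4 : |((Pool.Agent.H976R2.SW (n + 2)).card : ℝ) / ((Pool.Agent.H976R2.SW n).card : ℝ) -
      H981.mu ^ 2| ≤ K * Real.sqrt (Real.log n ^ 3 / n) := hK n h3
  rw [card_SW, card_SW] at h4
  have hc : 0 < H981.cr' n := lt_of_lt_of_le one_pos (H981.one_le_cr' n)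
  have h5 := (abs_le.1 h4).1
  have h6 : H981.mu ^ 2 / 2 ≤ H981.cr' (n + 2) / H981.cr' n := by linarith
  rwa [le_div_iff₀ hc] at h6

theorem two : Wk H981.cr' H981.mu := by
  have hmu := H981.mu_pos
  have hc : ∀ n, 0 < H981.cr' n := fun n => lt_of_lt_of_le one_pos (H981.one_le_cr' n)
  refine mk hmu H981.mu_pow_le H981.cr'_mul H981.tendsto_root (H981.mu ^ 2 / 2) (by positivity)
    ratio_two ?_
  obtain ⟨D, hD0, hD⟩ := Pool.Agent.H976R2.mom_ratio Pool.Agent.H976R2.good_one
  obtain ⟨N, hN⟩ := eventually_atTop.1 ratio_two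
  set a := H981.mu ^ 2 / 2 with ha
  have ha0 : 0 < a := by positivity
  refine ⟨D / a ^ 2, by positivity, ?_⟩
  filter_upwards [eventually_ge_atTop (N + 1)] with n hn
  have h1 := hD n (by omega)
  simp only [mom_one] at h1
  have h2 := hN n (by omega)
  have h3 := hN (n + 2) (by omega)
  rw [show n + 2 + 2 = n + 4 from rfl] at h3
  have hn0 : (0 : ℝ) < n := by exact_mod_cast (show 0 < n by omega)
  refine h1.trans ?_
  have h4 : a ^ 2 * H981.cr' n ≤ H981.cr' (n + 4) := by
    have := mul_le_mul_of_nonneg_left h2 ha0.le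
    calc a ^ 2 * H981.cr' n = a * (a * H981.cr' n) := by ring
      _ ≤ a * H981.cr' (n + 2) := this
      _ ≤ _ := h3
  have h5 : H981.cr' n ≤ H981.cr' (n + 4) / a ^ 2 := by
    rw [le_div_iff₀ (by positivity)]
    linarith
  have h6 : D / n * H981.cr' n ^ 2 ≤ D / n * (H981.cr' n * (H981.cr' (n + 4) / a ^ 2)) := by
    refine mul_le_mul_of_nonneg_left ?_ (by positivity)
    rw [pow_two]
    exact mul_le_mul_of_nonneg_left h5 (hc n).le
  have e : H981.cr' n * H981.cr' (n + 4) * (1 + D / a ^ 2 / n) =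
      H981.cr' n * H981.cr' (n + 4) + D / n * (H981.cr' n * (H981.cr' (n + 4) / a ^ 2)) := by
    field_simp
  rw [e]
  linarith

end Pool.Agent.Y943.SL
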