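import Pool.Agent.Y943.SL.Lat
import Pool.Agent.TH262.UL.Equiv
import Pool.Agent.TH262.UL.Inst

/-!
# Walks of different lengths on the square, triangular and honeycomb lattices
-/

set_option autoImplicit false

namespace Pool.Agent.Y943.SL

open Filter Topology TH966.AK
open Pool.Agent.TH262.UL (Hy g g_nonneg g_le Hy_of)

/-- the probability that walks with `n` and `m` steps are disjoint, in terms of the counts -/
noncomputable def Qn (a : ℕ → ℕ) (n m : ℕ) : ℝ := (a (n + m) : ℝ) / ((a n : ℝ) * a m)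

theorem hy_mk {c : ℕ → ℝ} {μ K R : ℝ} (hμ : 0 < μ) (low : ∀ n, μ ^ n ≤ c n)
    (up : ∀ n : ℕ, 2 ≤ n → c n ≤ μ ^ n * Real.exp (K * Real.log n ^ 2))
    (mult : ∀ m n, c (m + n) ≤ c m * c n)
    (rat : ∀ n : ℕ, 2 ≤ n → |c (n + 2) / c n - μ ^ 2| ≤ R * (Real.log n / √(n : ℝ))) :
    ∃ K c' C : ℝ, Hy (fun n => c n / μ ^ n) K c' C := by
  have hc : ∀ n, 0 < c n := fun n => lt_of_lt_of_le (pow_pos hμ n) (low n)
  set K' : ℝ := max (max K (R / μ ^ 2)) 1 with hK'
  set C : ℝ := max (c 1 / μ) 1 with hC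
  have hK1 : K ≤ K' := (le_max_left _ _).trans (le_max_left _ _)
  have hK2 : R / μ ^ 2 ≤ K' := (le_max_right _ _).trans (le_max_left _ _)
  obtain ⟨c', h⟩ := Hy_of (r := fun n => c n / μ ^ n) (K := K') (C := C) (le_max_right _ _)
    (le_max_right _ _)
    (fun n => (one_le_div (pow_pos hμ n)).2 (low n))
    (fun n hn => by
      rw [div_le_iff₀ (pow_pos hμ n), mul_comm]
      refine (up n hn).trans (mul_le_mul_of_nonneg_left ?_ (pow_pos hμ n).le)
      exact Real.exp_le_exp.2 (mul_le_mul_of_nonneg_right hK1 (sq_nonneg _)))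
    (fun n hn => by
      have h1 := rat n hn
      have e : c (n + 2) / μ ^ (n + 2) / (c n / μ ^ n) - 1 =
          (c (n + 2) / c n - μ ^ 2) / μ ^ 2 := by
        have := (hc n).ne'
        rw [pow_add]
        field_simp
      rw [e, abs_div, abs_of_pos (pow_pos hμ 2), div_le_iff₀ (pow_pos hμ 2)]
      refine h1.trans ?_
      have h2 : R ≤ K' * μ ^ 2 := by rwa [div_le_iff₀ (pow_pos hμ 2)] at hK2
      have h3 := g_nonneg n
      unfold g at h3
      unfold g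
      calc R * (Real.log n / √(n : ℝ)) ≤ K' * μ ^ 2 * (Real.log n / √(n : ℝ)) :=
            mul_le_mul_of_nonneg_right h2 h3
        _ = _ := by ring)
    (fun n => by
      have h1 := mult n 1
      rw [pow_succ, div_le_iff₀ (by positivity)]
      have h2 : c n * c 1 = c 1 / μ * (c n / μ ^ n) * (μ ^ n * μ) := by
        field_simp
      rw [h2] at h1
      refine h1.trans (mul_le_mul_of_nonneg_right ?_ (by positivity))
      exact mul_le_mul_of_nonneg_right (le_max_left _ _) (div_pos (hc n) (pow_pos hμ n)).le)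
  exact ⟨K', c', C, h⟩

theorem one_two {c : ℕ → ℝ} {μ R : ℝ} (hμ : 0 < μ) (hc : ∀ n, 0 < c n)
    (mult : ∀ m n, c (m + n) ≤ c m * c n)
    (rat : ∀ n : ℕ, 2 ≤ n → |c (n + 1) / c n - μ| ≤ R * (Real.log n / √(n : ℝ))) :
    ∀ n : ℕ, 2 ≤ n → |c (n + 2) / c n - μ ^ 2| ≤
      (c 1 + 5 * μ) * |R| * (Real.log n / √(n : ℝ)) := by
  intro n hn
  have h1 := rat n hn
  have h2 := rat (n + 1) (by omega)
  have hg := g_nonneg n
  have hg1 := g_nonneg (n + 1)
  have hgl := g_le hn (show n ≤ n + 1 by omega)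
  unfold g at hg hg1 hgl
  set G := Real.log n / √(n : ℝ) with hG
  set G1 := Real.log ((n + 1 : ℕ) : ℝ) / √((n + 1 : ℕ) : ℝ) with hG1
  obtain ⟨x, hx⟩ : ∃ x, x = c (n + 1) / c n := ⟨_, rfl⟩
  obtain ⟨y, hy⟩ : ∃ y, y = c (n + 2) / c (n + 1) := ⟨_, rfl⟩
  have hxy : c (n + 2) / c n = x * y := by
    rw [hx, hy]
    have := (hc (n + 1)).ne'
    have := (hc n).ne'
    field_simp
  rw [← hx] at h1
  rw [show n + 1 + 1 = n + 2 from rfl, ← hy] at h2
  have hy0 : 0 < y := by rw [hy]; exact div_pos (hc _) (hc _)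
  have hy1 : y ≤ c 1 := by
    rw [hy, div_le_iff₀ (hc _), mul_comm]
    exact mult (n + 1) 1
  have hc1 := hc 1
  have h3 : |x - μ| ≤ |R| * G := h1.trans (mul_le_mul_of_nonneg_right (le_abs_self R) hg)
  have h4 : |y - μ| ≤ |R| * (5 * G) :=
    h2.trans ((mul_le_mul_of_nonneg_right (le_abs_self R) hg1).trans
      (mul_le_mul_of_nonneg_left hgl (abs_nonneg R)))
  rw [hxy, show x * y - μ ^ 2 = (x - μ) * y + μ * (y - μ) by ring]
  refine (abs_add_le _ _).trans ?_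
  rw [abs_mul, abs_mul, abs_of_pos hy0, abs_of_pos hμ]
  have h5 : |x - μ| * y ≤ |R| * G * c 1 := by
    exact mul_le_mul h3 hy1 hy0.le (by positivity)
  have h6 : μ * |y - μ| ≤ μ * (|R| * (5 * G)) := mul_le_mul_of_nonneg_left h4 hμ.le
  calc |x - μ| * y + μ * |y - μ| ≤ |R| * G * c 1 + μ * (|R| * (5 * G)) := add_le_add h5 h6
    _ = _ := by ring

theorem hy_tri (a : ℕ → ℕ)
    (ha : ∀ n : ℕ, a n = Set.ncard {f : Fin (n + 1) → ℤ × ℤ |
            f 0 = 0 ∧ Function.Injective f ∧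
            ∀ i : Fin n, AdjT (f i.castSucc) (f i.succ)}) (μ : ℝ)
    (hμ : μ = (⨅ n : {n : ℕ // 1 ≤ n}, ((a n.1 : ℝ) ^ ((1 : ℝ) / (n.1 : ℝ))))) :
    ∃ K c C : ℝ, Hy (fun n => (a n : ℝ) / μ ^ n) K c C := by
  obtain ⟨hm, hr⟩ := facts (L := H982P.triL) H982P.coord_tri a ha μ hμ
  obtain ⟨hc, K, G⟩ := tri_growth a ha μ hμ
  obtain ⟨R, hR⟩ := G.rate1 rfl
  have hlow := G.low
  have hup := G.up
  simp only [hc] at hlow hup hR
  have hμ0 : 0 < μ := by linarith [G.hμ]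
  exact hy_mk (c := fun n => (a n : ℝ)) hμ0 hlow hup hm
    (one_two (c := fun n => (a n : ℝ)) hμ0
      (fun n => lt_of_lt_of_le (pow_pos hμ0 n) (hlow n)) hm hR)

theorem hy_hex (a : ℕ → ℕ)
    (ha : ∀ n : ℕ, a n = Set.ncard {f : Fin (n + 1) → ℤ × ℤ |
            f 0 = 0 ∧ Function.Injective f ∧
            ∀ i : Fin n, AdjH (f i.castSucc) (f i.succ)}) (μ : ℝ)
    (hμ : μ = (⨅ n : {n : ℕ // 1 ≤ n}, ((a n.1 : ℝ) ^ ((1 : ℝ) / (n.1 : ℝ))))) :
    ∃ K c C : ℝ, Hy (fun n => (a n : ℝ) / μ ^ n) K c C := by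
  obtain ⟨hm, hr⟩ := facts (L := H982P.hexL) H982P.coord_hex a ha μ hμ
  have hμ2 : μ = Real.sqrt (2 + Real.sqrt 2) := by rw [hμ, hex_mu a ha]
  obtain ⟨hc, K, G⟩ := hex_growth a ha
  rw [← hμ2] at G
  obtain ⟨R, hR⟩ := G.rate2 rfl
  have hlow := G.low
  have hup := G.up
  simp only [hc] at hlow hup hR
  have hμ0 : 0 < μ := by linarith [G.hμ]
  exact hy_mk (c := fun n => (a n : ℝ)) hμ0 hlow hup hm hR

theorem hy_sq (a : ℕ → ℕ)
    (ha : ∀ n : ℕ, a n = Set.ncard {f : Fin (n + 1) → ℤ × ℤ |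
            f 0 = 0 ∧ Function.Injective f ∧
            ∀ i : Fin n, (fun p q : ℤ × ℤ => |p.1 - q.1| + |p.2 - q.2| = 1) (f i.castSucc)
              (f i.succ)}) (μ : ℝ)
    (hμ : μ = (⨅ n : {n : ℕ // 1 ≤ n}, ((a n.1 : ℝ) ^ ((1 : ℝ) / (n.1 : ℝ))))) :
    ∃ K c C : ℝ, Hy (fun n => (a n : ℝ) / μ ^ n) K c C := by
  obtain ⟨hm, hr⟩ := facts (L := H982P.sqL) H982P.coord_sq a ha μ hμ
  have hc : ∀ n, (a n : ℝ) = H981.cr' n := by
    intro n
    rw [H981.cr'_eq]
    congr 1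
    rw [ha n, H981.C, ← Nat.card_coe_set_eq]
    refine Nat.card_congr (Equiv.subtypeEquivRight fun f => ?_)
    unfold H981.IsSAW
    constructor
    · rintro ⟨h0, hi, hs⟩
      refine ⟨h0, fun i => ?_, hi⟩
      have := hs i
      simp only at this
      rw [abs_sub_comm, abs_sub_comm (f i.succ).2]
      exact this
    · rintro ⟨h0, hs, hi⟩
      refine ⟨h0, hi, fun i => ?_⟩
      have := hs i
      rw [abs_sub_comm, abs_sub_comm (f i.succ).2] at this
      exact this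
  have h1 : μ = H981.mu := by
    refine tendsto_nhds_unique hr ?_
    simpa only [hc] using H981.tendsto_root
  obtain ⟨K, c, C, h⟩ := Pool.Agent.TH262.UL.hy
  refine ⟨K, c, C, ?_⟩
  have e : (fun n => (a n : ℝ) / μ ^ n) = Pool.Agent.TH262.UL.rr := by
    funext n
    unfold Pool.Agent.TH262.UL.rr
    rw [Pool.Agent.TH262.UL.a_eq, hc n, h1]
  rw [e]
  exact h

variable {a : ℕ → ℕ} {μ K c C : ℝ}

theorem p_eq_Qn (hμ : 0 < μ) (n m : ℕ) :
    Pool.Agent.TH262.UL.p (fun n => (a n : ℝ) / μ ^ n) n m = Qn a n m := by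
  unfold Pool.Agent.TH262.UL.p Qn
  have h1 := (pow_pos hμ n).ne'
  have h2 := (pow_pos hμ m).ne'
  simp only
  rw [pow_add]
  rcases eq_or_ne ((a n : ℝ) * a m) 0 with h0 | h0
  · rw [h0, div_zero, div_mul_div_comm, h0, zero_div, div_zero]
  · rw [div_mul_div_comm, div_div_div_cancel_right₀ (mul_ne_zero h1 h2)]

/-- the theorem for one lattice -/
theorem uneq (W : Wk (fun n => (a n : ℝ)) μ) (h : Hy (fun n => (a n : ℝ) / μ ^ n) K c C) :
    (∃ B : ℝ, ∀ n m : ℕ, 1 ≤ n → 1 ≤ m →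
      Real.exp (-(B * Real.log (((min n m : ℕ) : ℝ) + 1) ^ 2)) ≤ Qn a n m) ∧
    (∃ K : ℝ, ∀ n m : ℕ, 2 ≤ n → Even m → (m : ℝ) * Real.log n ≤ Real.sqrt n →
      |Qn a n m / (μ ^ m / a m) - 1| ≤ K * ((m : ℝ) * Real.log n / Real.sqrt n)) ∧
    ∀ (α : ℝ) (N : ℕ → ℕ), Tendsto N atTop atTop →
      Tendsto (fun m : ℕ => (m : ℝ) * Real.log (N m) / Real.sqrt (N m)) atTop (𝓝 0) →
      (Tendsto (fun n : ℕ => Real.log (Qn a n n) / Real.log n) atTop (𝓝 (-α)) ↔
        Tendsto (fun m : ℕ => Real.log (Qn a (N m) m) / Real.log m) atTop (𝓝 (-α))) ∧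
      (Tendsto (fun n : ℕ => Real.log (Qn a n n) / Real.log n) atTop (𝓝 (-α)) ↔
        Tendsto (fun n : ℕ => Real.log ((a n : ℝ) / μ ^ n) / Real.log n) atTop (𝓝 α)) ∧
      ∀ S : Set ℕ,
        (∀ δ : ℝ, 0 < δ → ∀ᶠ n : ℕ in atTop, ∃ m ∈ S, n ≤ m ∧
          (m : ℝ) ≤ n + δ * √(n * Real.log n)) →
        Tendsto (fun m : ℕ => Real.log (Qn a (N m) m) / Real.log m) (atTop ⊓ 𝓟 S) (𝓝 (-α)) →
        Tendsto (fun n : ℕ => Real.log (Qn a n n) / Real.log n) atTop (𝓝 (-α)) := by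
  have hμ := W.hμ
  have hp := fun n m => p_eq_Qn (a := a) hμ n m
  refine ⟨?_, ?_, ?_⟩
  · obtain ⟨B, hB, hs⟩ := h.short
    refine ⟨B, fun n m hn hm => ?_⟩
    rw [← hp]
    rcases Nat.le_total m n with h1 | h1
    · rw [min_eq_right h1]
      exact hs n m hm h1
    · rw [min_eq_left h1]
      have := hs m n hn h1
      have e : Pool.Agent.TH262.UL.p (fun n => (a n : ℝ) / μ ^ n) m n =
          Pool.Agent.TH262.UL.p (fun n => (a n : ℝ) / μ ^ n) n m := by
        unfold Pool.Agent.TH262.UL.p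
        rw [Nat.add_comm, mul_comm]
      rwa [e] at this
  · refine ⟨5 * K * Real.exp (5 * K), fun n m hn hm hs => ?_⟩
    have h1 := h.near hn hm hs
    have e : Qn a n m / (μ ^ m / a m) =
        (a (n + m) : ℝ) / μ ^ (n + m) / ((a n : ℝ) / μ ^ n) := by
      unfold Qn
      have p1 := W.cpos n
      have p2 := W.cpos m
      have := (pow_pos hμ n).ne'
      have := (pow_pos hμ m).ne'
      rw [pow_add]
      field_simp
    rw [e]
    exact h1
  · intro α N hN hs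
    have h1 := h.exponents hN hs (α := α)
    have h2 := h.far_iff hN hs (α := α)
    simp only [hp] at h1 h2
    refine ⟨h1.symm, h1.symm.trans h2, fun S hS hlim => ?_⟩
    obtain ⟨D, hD⟩ := h.far hN hs
    simp only [hp] at hD
    have hz : Tendsto (fun m : ℕ => (Real.log (Qn a (N m) m) + Real.log ((a m : ℝ) / μ ^ m)) /
        Real.log m) atTop (𝓝 0) := by
      have t1 : Tendsto (fun m : ℕ => D / Real.log (m : ℝ)) atTop (𝓝 0) :=
        Pool.Agent.TH262.UL.tendsto_log_nat.const_div_atTop D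
      refine squeeze_zero_norm' ?_ t1
      filter_upwards [hD, eventually_ge_atTop 2] with m h1 hm
      have hl : 0 < Real.log m := Real.log_pos (by exact_mod_cast (by omega : 1 < m))
      rw [Real.norm_eq_abs, abs_div, abs_of_pos hl]
      exact div_le_div_of_nonneg_right h1 hl.le
    have hr : Tendsto (fun m : ℕ => Real.log ((a m : ℝ) / μ ^ m) / Real.log m) (atTop ⊓ 𝓟 S)
        (𝓝 α) := by
      have := (hz.mono_left (inf_le_left : atTop ⊓ 𝓟 S ≤ atTop)).sub hlim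
      rw [show (0 : ℝ) - -α = α by ring] at this
      refine this.congr fun m => ?_
      ring
    have h3 := W.expo S hS α hr
    exact (h1.symm.trans h2).2 h3

end Pool.Agent.Y943.SL
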